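import Pool.Agent.H53R5.Perm

/-! # The second-order form at the base point is nondegenerate -/

set_option autoImplicit false
set_option linter.unusedSectionVars false

namespace Pool.Agent.H53R5

open MvPolynomial Equiv Finset

universe u

variable {K : Type u} [Field K] {κ : Type} [Fintype κ] [DecidableEq κ]

/-- the polar form of `qf` -/
def bf (y z : Option κ × Option κ → K) : K :=
  ((Fintype.card κ : K) - 1) * ((∑ i, y (some i, none)) * (∑ i, ∑ j, z (some i, some j))
      + (∑ i, z (some i, none)) * (∑ i, ∑ j, y (some i, some j))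
      - ∑ i, y (some i, none) * ∑ j, z (some i, some j)
      - ∑ i, z (some i, none) * ∑ j, y (some i, some j))
    - 2 * ((∑ i, ∑ j, y (some i, some j)) * (∑ i, ∑ j, z (some i, some j)))
    + 2 * ∑ j, (∑ i, y (some i, some j)) * (∑ i, z (some i, some j))
    + 2 * ∑ i, (∑ j, y (some i, some j)) * (∑ j, z (some i, some j))
    - 2 * ∑ i, ∑ j, y (some i, some j) * z (some i, some j)
    + ((Fintype.card κ : K) - 1) * ((y (none, none) + ∑ j, y (none, some j))
        * (∑ i, z (some i, none) + ∑ i, ∑ j, z (some i, some j))
      + (z (none, none) + ∑ j, z (none, some j))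
        * (∑ i, y (some i, none) + ∑ i, ∑ j, y (some i, some j))
      - y (none, none) * ∑ i, z (some i, none)
      - z (none, none) * ∑ i, y (some i, none)
      - ∑ j, y (none, some j) * ∑ i, z (some i, some j)
      - ∑ j, z (none, some j) * ∑ i, y (some i, some j))

lemma sum_sq_add {ι : Type} [Fintype ι] (f g : ι → K) :
    ∑ i, (f i + g i) ^ 2 = ∑ i, f i ^ 2 + ∑ i, g i ^ 2 + 2 * ∑ i, f i * g i := by
  rw [Finset.mul_sum, ← Finset.sum_add_distrib, ← Finset.sum_add_distrib]
  exact Finset.sum_congr rfl fun i _ => by ring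

lemma sum_mul_add {ι : Type} [Fintype ι] (f g f' g' : ι → K) :
    ∑ i, (f i + f' i) * (g i + g' i)
      = ∑ i, f i * g i + ∑ i, f' i * g' i + ∑ i, f i * g' i + ∑ i, f' i * g i := by
  rw [← Finset.sum_add_distrib, ← Finset.sum_add_distrib, ← Finset.sum_add_distrib]
  exact Finset.sum_congr rfl fun i _ => by ring

lemma qf_polar (y z : Option κ × Option κ → K) : qf (y + z) = qf y + qf z + bf y z := by
  unfold qf bf
  simp only [Pi.add_apply, Finset.sum_add_distrib, sum_sq_add, sum_mul_add]
  rw [← Finset.mul_sum]
  ring

/-- **Nondegeneracy.** -/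
theorem bf_nondeg [CharZero K] (hκ : 2 ≤ Fintype.card κ) (y : Option κ × Option κ → K)
    (h : ∀ z, bf z y = 0) : y = 0 := by
  have hN0 : (Fintype.card κ : K) ≠ 0 := by
    have : Fintype.card κ ≠ 0 := by omega
    exact_mod_cast this
  have hN1 : (Fintype.card κ : K) - 1 ≠ 0 := by
    have : Fintype.card κ ≠ 1 := by omega
    intro h
    apply this
    have h2 : (Fintype.card κ : K) = ((1 : ℕ) : K) := by push_cast; linear_combination h
    exact_mod_cast h2
  have h2 : (2 : K) ≠ 0 := two_ne_zero
  have t1 := h (fun e => if e = (none, none) then 1 else 0)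
  have t2 : ∀ j : κ, _ := fun j => h (fun e => if e = (none, some j) then 1 else 0)
  have t3 : ∀ i : κ, _ := fun i => h (fun e => if e = (some i, none) then 1 else 0)
  have t4 : ∀ i j : κ, _ := fun i j => h (fun e => if e = (some i, some j) then 1 else 0)
  simp only [bf, Prod.mk.injEq, reduceCtorEq, false_and, and_false, and_true, true_and,
    Option.some.injEq, if_false, if_true, Finset.sum_const_zero, zero_mul, mul_zero, zero_add,
    add_zero, sub_zero, ite_mul, one_mul, Finset.sum_ite_eq', Finset.mem_univ, ite_and,
    Finset.sum_ite_irrel] at t1 t2 t3 t4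
  simp only [mul_ite, mul_one, mul_zero, Finset.sum_ite_eq', Finset.mem_univ, if_true] at t4
  set N : K := (Fintype.card κ : K) with hN
  set a : K := y (none, none) with ha
  have hcard : ∀ x : K, ∑ _i : κ, x = N * x := fun x => by
    rw [Finset.sum_const, Finset.card_univ, nsmul_eq_mul]
  have hS : ∑ i, ∑ j, y (some i, some j) = 0 := by
    rcases mul_eq_zero.1 t1 with h | h
    · exact absurd h hN1
    · linear_combination h
  have hC : ∀ j, ∑ i, y (some i, some j) = ∑ i, y (some i, none) := by
    intro j
    rcases mul_eq_zero.1 (t2 j) with h | h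
    · exact absurd h hN1
    · linear_combination hS - h
  have hc : ∑ i, y (some i, none) = 0 := by
    have h1 : ∑ j, ∑ i, y (some i, some j) = N * ∑ i, y (some i, none) := by
      rw [Finset.sum_congr rfl fun j _ => hC j, hcard]
    rw [Finset.sum_comm, hS] at h1
    rcases mul_eq_zero.1 h1.symm with h | h
    · exact absurd h hN0
    · exact h
  have hR : ∀ i, ∑ j, y (some i, some j) = ∑ j, y (none, some j) := by
    intro i
    have h1 : (N - 1) * (∑ j, y (none, some j) - ∑ j, y (some i, some j)) = 0 := by
      linear_combination t3 i - (N - 1) * hS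
    rcases mul_eq_zero.1 h1 with h | h
    · exact absurd h hN1
    · linear_combination -h
  have hr : ∑ j, y (none, some j) = 0 := by
    have h1 : ∑ i, ∑ j, y (some i, some j) = N * ∑ j, y (none, some j) := by
      rw [Finset.sum_congr rfl fun i _ => hR i, hcard]
    rw [hS] at h1
    rcases mul_eq_zero.1 h1.symm with h | h
    · exact absurd h hN0
    · exact h
  have h4 : ∀ i j, 2 * y (some i, some j) = (N - 1) * (a - y (some i, none) - y (none, some j)) := by
    intro i j
    have h1 := t4 i j
    rw [hC j, hR i, hS, hc, hr] at h1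
    linear_combination -h1
  have hci : ∀ i, y (some i, none) = a := by
    intro i
    have h1 : ∑ j, 2 * y (some i, some j)
        = ∑ j, (N - 1) * (a - y (some i, none) - y (none, some j)) :=
      Finset.sum_congr rfl fun j _ => h4 i j
    rw [← Finset.mul_sum, hR i, hr, ← Finset.mul_sum, Finset.sum_sub_distrib, hcard, hr] at h1
    have h5 : (N - 1) * (N * (a - y (some i, none))) = 0 := by linear_combination -h1
    rcases mul_eq_zero.1 h5 with h | h
    · exact absurd h hN1
    · rcases mul_eq_zero.1 h with h | h
      · exact absurd h hN0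
      · linear_combination -h
  have ha0 : a = 0 := by
    have h1 : ∑ i, y (some i, none) = N * a := by
      rw [Finset.sum_congr rfl fun i _ => hci i, hcard]
    rw [hc] at h1
    rcases mul_eq_zero.1 h1.symm with h | h
    · exact absurd h hN0
    · exact h
  have hrj : ∀ j, y (none, some j) = 0 := by
    intro j
    have h1 : ∑ i, 2 * y (some i, some j)
        = ∑ i, (N - 1) * (a - y (some i, none) - y (none, some j)) :=
      Finset.sum_congr rfl fun i _ => h4 i j
    rw [← Finset.mul_sum, hC j, hc, ← Finset.mul_sum, Finset.sum_sub_distrib,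
      Finset.sum_sub_distrib, hcard, hcard, hc, ha0] at h1
    have h5 : (N - 1) * (N * y (none, some j)) = 0 := by linear_combination h1
    rcases mul_eq_zero.1 h5 with h | h
    · exact absurd h hN1
    · rcases mul_eq_zero.1 h with h | h
      · exact absurd h hN0
      · exact h
  funext e
  rcases e with ⟨_ | i, _ | j⟩
  · exact ha0
  · exact hrj j
  · rw [hci i, ha0]; rfl
  · have h1 := h4 i j
    rw [hci i, hrj j, ha0] at h1
    have h5 : (2 : K) * y (some i, some j) = 0 := by linear_combination h1
    rcases mul_eq_zero.1 h5 with h | h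
    · exact absurd h h2
    · exact h

/-- the matrix of second derivatives of the permanent is invertible at the base point -/
theorem hmat_base [CharZero K] (hκ : 2 ≤ Fintype.card κ) :
    eval (base K κ) (hmat (perP K (Option κ))).det ≠ 0 := by
  obtain ⟨ν, hν0, hν⟩ := exists_coeff_two (K := K) (κ := κ) hκ
  intro h
  have h1 : ((hmat (perP K (Option κ))).map (eval (base K κ))).det = 0 := by
    have e : (hmat (perP K (Option κ))).map (eval (base K κ))
      = (eval (base K κ)).mapMatrix (hmat (perP K (Option κ))) := rfl
    rw [e, ← RingHom.map_det]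
    exact h
  obtain ⟨y, hy0, hy⟩ := Matrix.exists_mulVec_eq_zero_iff.2 h1
  apply hy0
  apply bf_nondeg hκ
  intro z
  have h2 := hmat_apply (perP K (Option κ)) (base K κ) z y
  rw [hy, dotProduct_zero, hess_polar, hν, hν, hν, qf_polar] at h2
  have h3 : (2 * (ν : K)) * bf z y = 0 := by linear_combination -h2
  rcases mul_eq_zero.1 h3 with h | h
  · exact absurd h (mul_ne_zero two_ne_zero (by exact_mod_cast hν0))
  · exact h

/-- the minor of the permanent at the first entry -/
noncomputable def minorA (K : Type u) [Field K] (κ : Type) [Fintype κ] [DecidableEq κ] :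
    MvPolynomial (Option κ × Option κ) K :=
  ∑ σ : Perm (Option κ) with σ none = none, ∏ i : κ, X (some i, σ (some i))

/-- the part of the permanent not involving the first entry -/
noncomputable def restB (K : Type u) [Field K] (κ : Type) [Fintype κ] [DecidableEq κ] :
    MvPolynomial (Option κ × Option κ) K :=
  ∑ σ : Perm (Option κ) with ¬ σ none = none, ∏ i : Option κ, X (i, σ i)

lemma minorA_mem : minorA K κ ∈ Sup K ((none, none) : Option κ × Option κ) := by
  unfold minorA
  refine Subalgebra.sum_mem _ fun σ _ => Subalgebra.prod_mem _ fun i _ => ?_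
  exact X_mem_Sup (by simp)

lemma restB_mem : restB K κ ∈ Sup K ((none, none) : Option κ × Option κ) := by
  unfold restB
  refine Subalgebra.sum_mem _ fun σ hσ => Subalgebra.prod_mem _ fun i _ => ?_
  refine X_mem_Sup ?_
  rw [Finset.mem_filter] at hσ
  intro h
  rw [Prod.mk.injEq] at h
  obtain ⟨h1, h2⟩ := h
  subst h1
  exact hσ.2 h2

lemma perP_split : perP K (Option κ)
    = minorA K κ * X ((none, none) : Option κ × Option κ) + restB K κ := by
  rw [perP_eq, ← Finset.sum_filter_add_sum_filter_not univ (fun σ : Perm (Option κ) => σ none = none)]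
  unfold minorA restB
  rw [Finset.sum_mul]
  congr 1
  refine Finset.sum_congr rfl fun σ hσ => ?_
  rw [Finset.mem_filter] at hσ
  rw [Fintype.prod_option, hσ.2, mul_comm]

lemma eval_minorA_base [CharZero K] : eval (base K κ) (minorA K κ) ≠ 0 := by
  unfold minorA
  rw [map_sum]
  have h1 : ∀ σ ∈ univ.filter (fun σ : Perm (Option κ) => σ none = none),
      eval (base K κ) (∏ i : κ, X (some i, σ (some i))) = 1 := by
    intro σ _
    rw [map_prod]
    refine Finset.prod_eq_one fun i _ => ?_
    rw [eval_X]
    rfl
  rw [Finset.sum_congr rfl h1, Finset.sum_const, nsmul_eq_mul, mul_one]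
  have h2 : (univ.filter (fun σ : Perm (Option κ) => σ none = none)).card ≠ 0 := by
    rw [Finset.card_ne_zero]
    exact ⟨1, by simp⟩
  exact_mod_cast h2

lemma eval_perP_base [CharZero K] : eval (base K κ) (perP K (Option κ)) = 0 := by
  rw [eval_perP]
  have h1 : ∀ σ : Perm (Option κ), ∏ i, base K κ (i, σ i) = uu K κ (σ none) := by
    intro σ
    rw [Fintype.prod_option]
    have : ∏ i : κ, base K κ (some i, σ (some i)) = 1 := Finset.prod_eq_one fun i _ => rfl
    rw [this, mul_one]
    rfl
  rw [Finset.sum_congr rfl fun σ _ => h1 σ]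
  obtain ⟨ν, hν, -⟩ := Pool.Agent.H567.exists_card_prescribed 1 (Option κ)
  have h2 : ∑ σ : Perm (Option κ), uu K κ (σ none)
      = ∑ j : Option κ, ∑ σ : Perm (Option κ) with σ none = j, uu K κ j := by
    rw [← Finset.sum_fiberwise univ (fun σ : Perm (Option κ) => σ none)]
    refine Finset.sum_congr rfl fun j _ => Finset.sum_congr rfl fun σ hσ => ?_
    rw [(Finset.mem_filter.1 hσ).2]
  rw [h2]
  have h3 : ∀ j : Option κ, ∑ σ : Perm (Option κ) with σ none = j, uu K κ j = ν * uu K κ j := by
    intro j
    rw [Finset.sum_const, nsmul_eq_mul]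
    congr 2
    rw [← hν (fun _ => none) (fun _ => j) (fun _ _ _ => Subsingleton.elim _ _)
      (fun _ _ _ => Subsingleton.elim _ _)]
    congr 1
    ext σ
    simp
  rw [Finset.sum_congr rfl fun j _ => h3 j, ← Finset.mul_sum, sum_uu, mul_zero]

end Pool.Agent.H53R5
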