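import Pool.Agent.H53R5.Main1

/-! # Limits of determinants -/

set_option autoImplicit false
set_option linter.unusedSectionVars false

namespace Pool.Agent.H53R5

open MvPolynomial Finset Filter Topology

/-- A complex polynomial without small roots is controlled by its value at `0`. -/
lemma norm_eval_le (q : Polynomial ℂ) (m : ℕ) (hm : q.natDegree ≤ m) (ε : ℝ) (hε : 0 < ε)
    (h : ∀ r : ℂ, q.eval r = 0 → ε ≤ ‖r‖) (t : ℂ) :
    ‖q.eval t‖ ≤ ‖q.eval 0‖ * (1 + ‖t‖ / ε) ^ m := by
  by_cases hq : q = 0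
  · subst hq; simp
  have hs : q.Splits := IsAlgClosed.splits q
  have hb : 1 ≤ 1 + ‖t‖ / ε := by
    have : 0 ≤ ‖t‖ / ε := by positivity
    linarith
  have key : ∀ M : Multiset ℂ, (∀ r ∈ M, ε ≤ ‖r‖) →
      ‖(M.map fun r => t - r).prod‖ ≤ ‖(M.map fun r => 0 - r).prod‖ * (1 + ‖t‖ / ε) ^ M.card := by
    intro M
    induction M using Multiset.induction_on with
    | empty => intro _; simp
    | cons a M ih =>
      intro hM
      rw [Multiset.map_cons, Multiset.prod_cons, Multiset.map_cons, Multiset.prod_cons, norm_mul,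
        norm_mul, Multiset.card_cons, pow_succ]
      have h1 := ih (fun r hr => hM r (Multiset.mem_cons_of_mem hr))
      have ha := hM a (Multiset.mem_cons_self _ _)
      have h2 : ‖t - a‖ ≤ ‖(0 : ℂ) - a‖ * (1 + ‖t‖ / ε) := by
        have h3 : ‖t - a‖ ≤ ‖t‖ + ‖a‖ := norm_sub_le _ _
        have h4 : ‖(0 : ℂ) - a‖ = ‖a‖ := by rw [zero_sub, norm_neg]
        rw [h4]
        have h5 : ‖t‖ ≤ ‖a‖ * (‖t‖ / ε) := by
          rw [← mul_div_assoc, le_div_iff₀ hε, mul_comm]
          exact mul_le_mul_of_nonneg_right ha (norm_nonneg _)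
        linarith
      calc ‖t - a‖ * ‖(M.map fun r => t - r).prod‖
          ≤ (‖(0 : ℂ) - a‖ * (1 + ‖t‖ / ε)) *
            (‖(M.map fun r => 0 - r).prod‖ * (1 + ‖t‖ / ε) ^ M.card) :=
            mul_le_mul h2 h1 (norm_nonneg _) (by positivity)
        _ = _ := by ring
  have hroots : ∀ r ∈ q.roots, ε ≤ ‖r‖ := by
    intro r hr
    exact h r ((Polynomial.mem_roots hq).1 hr)
  have h1 := key q.roots hroots
  rw [hs.eval_eq_prod_roots t, hs.eval_eq_prod_roots 0, norm_mul, norm_mul, mul_assoc]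
  apply mul_le_mul_of_nonneg_left _ (norm_nonneg _)
  refine h1.trans (mul_le_mul_of_nonneg_left ?_ (norm_nonneg _))
  exact pow_le_pow_right₀ hb ((Polynomial.card_roots' q).trans hm)

variable {σ : Type} [DecidableEq σ] [Fintype σ]

lemma totalDegree_det_le {K : Type} [Field K] {m : ℕ}
    (A : Matrix (Fin m) (Fin m) (MvPolynomial σ K))
    (hA : ∀ i j, (A i j).totalDegree ≤ 1) : A.det.totalDegree ≤ m := by
  rw [Matrix.det_apply]
  refine (totalDegree_finsetSum _ _).trans (Finset.sup_le fun τ _ => ?_)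
  rw [Units.smul_def, zsmul_eq_mul]
  refine (totalDegree_mul _ _).trans ?_
  have h1 : (((Equiv.Perm.sign τ : ℤ) : MvPolynomial σ K)).totalDegree = 0 := by
    have : (((Equiv.Perm.sign τ : ℤ) : MvPolynomial σ K)) = C ((Equiv.Perm.sign τ : ℤ) : K) := by
      simp
    rw [this, totalDegree_C]
  rw [h1, zero_add]
  refine (totalDegree_finsetProd _ _).trans ?_
  calc ∑ i, (A (τ i) i).totalDegree ≤ ∑ _i : Fin m, 1 := Finset.sum_le_sum fun i _ => hA _ _
    _ = m := by simp

/-- the exponents bounded by `m` -/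
noncomputable def expo (σ : Type) [DecidableEq σ] [Fintype σ] (m : ℕ) : Finset (σ →₀ ℕ) :=
  (Finset.univ : Finset (σ → Fin (m + 1))).image
    (fun g => Finsupp.equivFunOnFinite.symm (fun i => (g i : ℕ)))

lemma mem_expo {m : ℕ} (d : σ →₀ ℕ) (h : ∀ i, d i ≤ m) : d ∈ expo σ m := by
  unfold expo
  rw [Finset.mem_image]
  refine ⟨fun i => ⟨d i, Nat.lt_succ_of_le (h i)⟩, Finset.mem_univ _, ?_⟩
  ext i
  simp

lemma eval_eq_expo {m : ℕ} (g : MvPolynomial σ ℂ) (hg : ∀ d, d ∉ expo σ m → coeff d g = 0)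
    (x : σ → ℂ) : eval x g = ∑ d ∈ expo σ m, coeff d g * ∏ i, x i ^ d i := by
  rw [eval_eq']
  apply Finset.sum_subset
  · intro d hd
    by_contra h
    exact (mem_support_iff.1 hd) (hg d h)
  · intro d _ hd
    rw [notMem_support_iff.1 hd, zero_mul]

lemma coeff_det_eq_zero {m : ℕ} (A : Matrix (Fin m) (Fin m) (MvPolynomial σ ℂ))
    (hA : ∀ i j, (A i j).totalDegree ≤ 1) (d : σ →₀ ℕ) (hd : d ∉ expo σ m) :
    coeff d A.det = 0 := by
  by_contra hc
  apply hd
  apply mem_expo
  intro i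
  have h1 := le_totalDegree (mem_support_iff.2 hc)
  have h2 := totalDegree_det_le A hA
  have h3 : d i ≤ d.sum fun _ e => e := by
    rw [Finsupp.sum_fintype _ _ (fun _ => rfl)]
    exact Finset.single_le_sum (fun j _ => Nat.zero_le _) (Finset.mem_univ i)
  omega

lemma tendsto_eval {m : ℕ} (A : ℕ → Matrix (Fin m) (Fin m) (MvPolynomial σ ℂ))
    (hA : ∀ k i j, (A k i j).totalDegree ≤ 1) (f : MvPolynomial σ ℂ)
    (hlim : ∀ d, Tendsto (fun k => coeff d (A k).det) atTop (𝓝 (coeff d f)))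
    (x : ℕ → σ → ℂ) (x₀ : σ → ℂ) (hx : Tendsto x atTop (𝓝 x₀)) :
    Tendsto (fun k => eval (x k) (A k).det) atTop (𝓝 (eval x₀ f)) := by
  have hf : ∀ d, d ∉ expo σ m → coeff d f = 0 := by
    intro d hd
    have h1 := hlim d
    have h2 : (fun k => coeff d (A k).det) = fun _ => (0 : ℂ) := by
      funext k
      exact coeff_det_eq_zero (A k) (hA k) d hd
    rw [h2] at h1
    exact tendsto_nhds_unique h1 tendsto_const_nhds
  rw [eval_eq_expo f hf]
  have h3 : ∀ k, eval (x k) (A k).det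
      = ∑ d ∈ expo σ m, coeff d (A k).det * ∏ i, x k i ^ d i := fun k =>
    eval_eq_expo _ (coeff_det_eq_zero (A k) (hA k)) _
  simp only [h3]
  refine tendsto_finsetSum _ fun d _ => (hlim d).mul ?_
  refine tendsto_finsetProd _ fun i _ => ?_
  exact ((tendsto_pi_nhds.1 hx) i).pow _

lemma natDegree_line_le (p e : σ → ℂ) (g : MvPolynomial σ ℂ) (m : ℕ) (hg : g.totalDegree ≤ m) :
    (line p e g).natDegree ≤ m := by
  have h1 : line p e g = ∑ d ∈ g.support, Polynomial.C (coeff d g)
      * ∏ i, (Polynomial.C (p i) + Polynomial.X * Polynomial.C (e i)) ^ d i := by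
    unfold line
    rw [aeval_def, eval₂_eq']
    rfl
  rw [h1]
  refine Polynomial.natDegree_sum_le_of_forall_le _ _ fun d hd => ?_
  refine (Polynomial.natDegree_C_mul_le _ _).trans ?_
  refine (Polynomial.natDegree_prod_le _ _).trans ?_
  have h2 : ∀ i ∈ (Finset.univ : Finset σ),
      ((Polynomial.C (p i) + Polynomial.X * Polynomial.C (e i)) ^ d i).natDegree ≤ d i := by
    intro i _
    refine (Polynomial.natDegree_pow_le).trans ?_
    have h3 : (Polynomial.C (p i) + Polynomial.X * Polynomial.C (e i)).natDegree ≤ 1 := by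
      refine (Polynomial.natDegree_add_le _ _).trans ?_
      rw [Polynomial.natDegree_C]
      refine max_le (by omega) ?_
      refine (Polynomial.natDegree_mul_le).trans ?_
      rw [Polynomial.natDegree_C, Polynomial.natDegree_X]
    calc d i * _ ≤ d i * 1 := Nat.mul_le_mul_left _ h3
      _ = d i := mul_one _
  refine (Finset.sum_le_sum h2).trans ?_
  have h4 := le_totalDegree hd
  rw [Finsupp.sum_fintype _ _ (fun _ => rfl)] at h4
  omega

end Pool.Agent.H53R5
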