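import Pool.Agent.H53R5.Border

/-! # Affine subspaces in the zero set of a limit of determinants -/

set_option autoImplicit false
set_option linter.unusedSectionVars false

namespace Pool.Agent.H53R5

open MvPolynomial Finset Filter Topology

variable {σ : Type} [DecidableEq σ] [Fintype σ]

lemma tendsto_line {m : ℕ} (A : ℕ → Matrix (Fin m) (Fin m) (MvPolynomial σ ℂ))
    (hA : ∀ k i j, (A k i j).totalDegree ≤ 1) (f : MvPolynomial σ ℂ)
    (hlim : ∀ d, Tendsto (fun k => coeff d (A k).det) atTop (𝓝 (coeff d f)))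
    (p e : σ → ℂ) (t : ℂ) :
    Tendsto (fun k => (line p e (A k).det).eval t) atTop (𝓝 ((line p e f).eval t)) := by
  have h1 := tendsto_eval A hA f hlim (fun _ => fun b => p b + t * e b)
    (fun b => p b + t * e b) tendsto_const_nhds
  have h2 : ∀ g : MvPolynomial σ ℂ, (line p e g).eval t = eval (fun b => p b + t * e b) g :=
    fun g => eval_line p e g t
  simp only [h2]
  exact h1

/-- zeros of the limit are limits of zeros (along a subsequence) -/
theorem exists_zeros {m : ℕ} (A : ℕ → Matrix (Fin m) (Fin m) (MvPolynomial σ ℂ))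
    (hA : ∀ k i j, (A k i j).totalDegree ≤ 1) (f : MvPolynomial σ ℂ) (hf : f ≠ 0)
    (hlim : ∀ d, Tendsto (fun k => coeff d (A k).det) atTop (𝓝 (coeff d f)))
    (p : σ → ℂ) (hp : eval p f = 0) :
    ∃ (k : ℕ → ℕ) (x : ℕ → σ → ℂ), Tendsto k atTop atTop ∧ Tendsto x atTop (𝓝 p) ∧
      ∀ n, eval (x n) (A (k n)).det = 0 := by
  obtain ⟨x₁, hx₁⟩ : ∃ x₁ : σ → ℂ, eval x₁ f ≠ 0 := by
    by_contra hcon
    push Not at hcon
    exact hf (MvPolynomial.funext fun x => by rw [hcon x, map_zero])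
  set e : σ → ℂ := x₁ - p with he
  have hev : ∀ (g : MvPolynomial σ ℂ) (t : ℂ), (line p e g).eval t
      = eval (fun b => p b + t * e b) g := fun g t => eval_line p e g t
  have key : ∀ ε : ℝ, 0 < ε → ∀ n₀ : ℕ, ∃ k, n₀ ≤ k ∧ ∃ t : ℂ, ‖t‖ < ε ∧
      eval (fun b => p b + t * e b) (A k).det = 0 := by
    intro ε hε n₀
    by_contra hcon
    push Not at hcon
    have h1 : ∀ k, n₀ ≤ k → ‖(line p e (A k).det).eval 1‖
        ≤ ‖(line p e (A k).det).eval 0‖ * (1 + ‖(1 : ℂ)‖ / ε) ^ m := by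
      intro k hk
      apply norm_eval_le _ m
        (natDegree_line_le p e _ m (totalDegree_det_le (A k) (hA k))) ε hε
      intro r hr
      rw [hev] at hr
      by_contra hlt
      push Not at hlt
      exact hcon k hk r hlt hr
    have h2 := (tendsto_line A hA f hlim p e 1).norm
    have h3 := ((tendsto_line A hA f hlim p e 0).norm).mul_const ((1 + ‖(1 : ℂ)‖ / ε) ^ m)
    have h4 := le_of_tendsto_of_tendsto h2 h3 (by
      filter_upwards [eventually_ge_atTop n₀] with k hk
      exact h1 k hk)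
    have h5 : (line p e f).eval 0 = 0 := by
      rw [hev]
      have : (fun b => p b + 0 * e b) = p := by
        funext b
        ring
      rw [this, hp]
    have h6 : (line p e f).eval 1 = eval x₁ f := by
      rw [hev]
      have : (fun b => p b + 1 * e b) = x₁ := by
        funext b
        rw [he, Pi.sub_apply]; ring
      rw [this]
    rw [h5, h6, norm_zero, zero_mul] at h4
    exact hx₁ (norm_le_zero_iff.1 h4)
  have hc : ∀ n : ℕ, ∃ k, n ≤ k ∧ ∃ t : ℂ, ‖t‖ < 1 / ((n : ℝ) + 1) ∧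
      eval (fun b => p b + t * e b) (A k).det = 0 := fun n =>
    key (1 / ((n : ℝ) + 1)) (by positivity) n
  choose k hk t ht hz using hc
  refine ⟨k, fun n => fun b => p b + t n * e b, tendsto_atTop_mono hk tendsto_id, ?_, hz⟩
  rw [tendsto_pi_nhds]
  intro b
  have h1 : Tendsto t atTop (𝓝 0) := by
    rw [tendsto_zero_iff_norm_tendsto_zero]
    exact squeeze_zero (fun n => norm_nonneg _) (fun n => (ht n).le)
      tendsto_one_div_add_atTop_nhds_zero_nat
  have h2 : Tendsto (fun n => p b + t n * e b) atTop (𝓝 (p b + 0 * e b)) :=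
    (h1.mul_const _).const_add _
  rwa [zero_mul, add_zero] at h2

/-- an orthonormal system of `d` vectors in a subspace of dimension at least `d` -/
lemma exists_frame (L : Submodule ℂ (EuclideanSpace ℂ σ)) (d : ℕ)
    (hd : d ≤ Module.finrank ℂ L) :
    ∃ u : Fin d → EuclideanSpace ℂ σ, Orthonormal ℂ u ∧ ∀ i, u i ∈ L := by
  let b := stdOrthonormalBasis ℂ L
  refine ⟨fun i => (b (Fin.castLE hd i) : EuclideanSpace ℂ σ), ?_, fun i => (b _).2⟩
  have h1 : Orthonormal ℂ (fun i : Fin d => b (Fin.castLE hd i)) :=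
    b.orthonormal.comp _ (Fin.castLE_injective hd)
  exact h1.comp_linearIsometry L.subtypeₗᵢ

/-- Through every zero of a nonzero limit of determinants of `m × m` matrices of affine-linear forms
passes an affine subspace of codimension at most `m` on which the limit vanishes. -/
theorem exists_subspace_limit {m : ℕ} (A : ℕ → Matrix (Fin m) (Fin m) (MvPolynomial σ ℂ))
    (hA : ∀ k i j, (A k i j).totalDegree ≤ 1) (f : MvPolynomial σ ℂ) (hf : f ≠ 0)
    (hlim : ∀ d, Tendsto (fun k => coeff d (A k).det) atTop (𝓝 (coeff d f)))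
    (p : σ → ℂ) (hp : eval p f = 0) :
    ∃ L : Submodule ℂ (σ → ℂ), Fintype.card σ ≤ Module.finrank ℂ L + m ∧
      ∀ y ∈ L, ∀ t : ℂ, eval (fun b => p b + t * y b) f = 0 := by
  obtain ⟨k, x, hk, hx, hz⟩ := exists_zeros A hA f hf hlim p hp
  set d : ℕ := Fintype.card σ - m with hd
  have hsub : ∀ n, ∃ u : Fin d → EuclideanSpace ℂ σ, Orthonormal ℂ u ∧
      ∀ c : Fin d → ℂ, ∀ t : ℂ,
        eval (fun b => x n b + t * (∑ i, c i • u i) b) (A (k n)).det = 0 := by
    intro n
    obtain ⟨L, hL, hL2⟩ := exists_subspace (A (k n)) (hA (k n)) (x n) (hz n)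
    let E : EuclideanSpace ℂ σ ≃ₗ[ℂ] (σ → ℂ) := WithLp.linearEquiv 2 ℂ (σ → ℂ)
    obtain ⟨u, hu, huL⟩ := exists_frame (L.comap (E : EuclideanSpace ℂ σ →ₗ[ℂ] (σ → ℂ))) d (by
      have h1 : Module.finrank ℂ (L.comap (E : EuclideanSpace ℂ σ →ₗ[ℂ] (σ → ℂ)))
          = Module.finrank ℂ L := by
        rw [Submodule.comap_equiv_eq_map_symm]
        exact LinearEquiv.finrank_map_eq E.symm L
      rw [h1]
      omega)
    refine ⟨u, hu, fun c t => ?_⟩
    have h2 : (∑ i, c i • u i) ∈ L.comap (E : EuclideanSpace ℂ σ →ₗ[ℂ] (σ → ℂ)) :=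
      Submodule.sum_mem _ fun i _ => Submodule.smul_mem _ _ (huL i)
    exact hL2 _ h2 t
  choose u hu hu2 using hsub
  have hcpt : IsCompact (Metric.closedBall (0 : Fin d → EuclideanSpace ℂ σ) 1) :=
    isCompact_closedBall _ _
  have hmem : ∀ n, u n ∈ Metric.closedBall (0 : Fin d → EuclideanSpace ℂ σ) 1 := by
    intro n
    rw [mem_closedBall_zero_iff, pi_norm_le_iff_of_nonneg zero_le_one]
    intro i
    exact ((hu n).1 i).le
  obtain ⟨v, -, φ, hφ, hv⟩ := hcpt.tendsto_subseq hmem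
  have hvi : ∀ i, Tendsto (fun n => u (φ n) i) atTop (𝓝 (v i)) := fun i =>
    (tendsto_pi_nhds.1 hv) i
  have hvo : Orthonormal ℂ v := by
    rw [orthonormal_iff_ite]
    intro i j
    have h1 : Tendsto (fun n => inner ℂ (u (φ n) i) (u (φ n) j)) atTop (𝓝 (inner ℂ (v i) (v j))) :=
      (hvi i).inner (hvi j)
    have h2 : (fun n => inner ℂ (u (φ n) i) (u (φ n) j))
        = fun _ => (if i = j then (1 : ℂ) else 0) := by
      funext n
      exact (orthonormal_iff_ite.1 (hu (φ n))) i j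
    rw [h2] at h1
    exact tendsto_nhds_unique h1 tendsto_const_nhds |>.symm ▸ rfl
  let E : EuclideanSpace ℂ σ ≃ₗ[ℂ] (σ → ℂ) := WithLp.linearEquiv 2 ℂ (σ → ℂ)
  have hli : LinearIndependent ℂ (fun i => E (v i)) :=
    hvo.linearIndependent.map' (E : EuclideanSpace ℂ σ →ₗ[ℂ] (σ → ℂ)) (LinearEquiv.ker E)
  refine ⟨Submodule.span ℂ (Set.range fun i => E (v i)), ?_, ?_⟩
  · rw [finrank_span_eq_card hli, Fintype.card_fin]
    omega
  · intro y hy t
    obtain ⟨c, rfl⟩ := (Submodule.mem_span_range_iff_exists_fun ℂ).1 hy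
    have h1 : ∀ b, (∑ i, c i • E (v i)) b = (∑ i, c i • v i) b := by
      intro b
      have : (∑ i, c i • E (v i)) = E (∑ i, c i • v i) := by
        rw [map_sum]
        exact Finset.sum_congr rfl fun i _ => (map_smul E _ _).symm
      rw [this]
      rfl
    have h2 : Tendsto (fun n => fun b => x (φ n) b + t * (∑ i, c i • u (φ n) i) b) atTop
        (𝓝 (fun b => p b + t * (∑ i, c i • E (v i)) b)) := by
      rw [tendsto_pi_nhds]
      intro b
      rw [h1 b]
      refine Tendsto.add ?_ (Tendsto.const_mul _ ?_)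
      · exact (tendsto_pi_nhds.1 (hx.comp hφ.tendsto_atTop)) b
      · have h3 : Tendsto (fun n => ∑ i, c i • u (φ n) i) atTop (𝓝 (∑ i, c i • v i)) :=
          tendsto_finsetSum _ fun i _ => (hvi i).const_smul (c i)
        exact ((EuclideanSpace.proj (𝕜 := ℂ) b).continuous.tendsto _).comp h3
    have h3 := tendsto_eval (fun n => A (k (φ n))) (fun n => hA _) f
      (fun d => (hlim d).comp (hk.comp hφ.tendsto_atTop)) _ _ h2
    have h4 : (fun n => eval (fun b => x (φ n) b + t * (∑ i, c i • u (φ n) i) b)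
        (A (k (φ n))).det) = fun _ => (0 : ℂ) := by
      funext n
      exact hu2 (φ n) c t
    rw [h4] at h3
    exact tendsto_nhds_unique h3 tendsto_const_nhds

theorem multiples_border_option {κ : Type} [Fintype κ] [DecidableEq κ]
    (hκ : 2 ≤ Fintype.card κ) {m : ℕ}
    (A : ℕ → Matrix (Fin m) (Fin m) (MvPolynomial (Option κ × Option κ) ℂ))
    (hA : ∀ k i j, (A k i j).totalDegree ≤ 1) (f : MvPolynomial (Option κ × Option κ) ℂ)
    (hf : f ≠ 0)
    (hlim : ∀ d, Tendsto (fun k => coeff d (A k).det) atTop (𝓝 (coeff d f)))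
    (hdvd : perP ℂ (Option κ) ∣ f) :
    Fintype.card (Option κ) ^ 2 ≤ 2 * m := by
  obtain ⟨p₁, -, -, hp⟩ := perm_generic hκ f hf (fun _ => Set.univ)
    (fun _ => Set.infinite_univ)
  obtain ⟨h1, h2, h3⟩ := hp _ rfl
  set p := Function.update p₁ (none, none) (- eval p₁ (restB ℂ κ) / eval p₁ (minorA ℂ κ)) with hpd
  have hp0 : eval p f = 0 := by
    obtain ⟨g, hg⟩ := hdvd
    rw [hg, map_mul, h1, zero_mul]
  obtain ⟨L, hL, hL2⟩ := exists_subspace_limit A hA f hf hlim p hp0
  have h4 := finrank_le_of_vanish (perP ℂ (Option κ)) p h2 L (fun y hy => h3 y (hL2 y hy))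
  rw [Fintype.card_prod] at hL h4
  rw [sq]
  omega

end Pool.Agent.H53R5
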