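import Pool.Agent.H53R5.RealA

/-! # Real determinantal representations of multiples of the permanent -/

set_option autoImplicit false
set_option linter.unusedSectionVars false

namespace Pool.Agent.H53R5

open MvPolynomial Finset Filter Topology

variable {κ : Type} [Fintype κ] [DecidableEq κ]


/-- real generic points -/
theorem real_generic (hκ : 2 ≤ Fintype.card κ) (f : MvPolynomial (Option κ × Option κ) ℝ)
    (hf : f ≠ 0) :
    ∃ p : Option κ × Option κ → ℝ, eval p (perP ℝ (Option κ)) = 0 ∧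
      (∀ w : (κ × κ → ℝ) × ℝ, w ≠ 0 → hP p w < 0) ∧
      ∀ y, (∀ t : ℝ, eval (fun b => p b + t * y b) f = 0) →
        line p y (perP ℝ (Option κ)) = 0 := by
  have h1 : ∀ᶠ p₁ in 𝓝 (base ℝ κ), ∀ w : (κ × κ → ℝ) × ℝ, w ≠ 0 → hP (lift p₁) w < 0 := by
    have := continuousAt_lift (κ := κ)
    unfold ContinuousAt at this
    rw [lift_base] at this
    exact this.eventually (eventually_neg hκ)
  obtain ⟨δ, hδ, hball⟩ := Metric.eventually_nhds_iff_ball.1 h1
  obtain ⟨p₁, hp₁, -, hp⟩ := perm_generic hκ f hf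
    (fun b => Metric.ball (base ℝ κ b) δ) (fun b => by
      rw [Real.ball_eq_Ioo]
      exact Set.Ioo_infinite (by linarith))
  have hmem : p₁ ∈ Metric.ball (base ℝ κ) δ := by
    rw [Metric.mem_ball, dist_pi_lt_iff hδ]
    exact fun b => hp₁ b
  obtain ⟨h2, -, h3⟩ := hp _ rfl
  exact ⟨lift p₁, h2, hball p₁ hmem, h3⟩

theorem finrank_rangePhi (hκ : 2 ≤ Fintype.card κ) :
    Module.finrank ℝ (LinearMap.range (Phi κ)) = Fintype.card κ * Fintype.card κ + 1 := by
  have hinj : Function.Injective (Phi κ) := by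
    rcases Phi_injective (κ := κ) with h | h
    · exact h
    · omega
  rw [LinearMap.finrank_range_of_inj hinj, Module.finrank_prod,
    Module.finrank_fintype_fun_eq_card, Module.finrank_self, Fintype.card_prod]

theorem multiples_real (hκ : 2 ≤ Fintype.card κ) {m : ℕ}
    (A : Matrix (Fin m) (Fin m) (MvPolynomial (Option κ × Option κ) ℝ))
    (hA : ∀ i j, (A i j).totalDegree ≤ 1) (hdet : A.det ≠ 0)
    (hdvd : perP ℝ (Option κ) ∣ A.det) :
    Fintype.card κ ^ 2 + 1 ≤ m := by
  obtain ⟨p, h2, hneg, h3⟩ := real_generic hκ A.det hdet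
  have hp0 : eval p A.det = 0 := by
    obtain ⟨g, hg⟩ := hdvd
    rw [hg, map_mul, h2, zero_mul]
  obtain ⟨L, hL, hL2⟩ := exists_subspace A hA p hp0
  have hdisj : Disjoint L (LinearMap.range (Phi κ)) := by
    rw [Submodule.disjoint_def]
    rintro y hy ⟨w, rfl⟩
    by_contra hne
    have hw0 : w ≠ 0 := by
      intro h
      apply hne
      rw [h, map_zero]
    have h4 := hneg w hw0
    have h5 : hP p w = 0 := by
      unfold hP
      rw [hess_self, h3 _ (hL2 _ hy), Polynomial.coeff_zero, mul_zero]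
    rw [h5] at h4
    exact lt_irrefl _ h4
  have h6 := Submodule.finrank_add_finrank_le_of_disjoint hdisj
  rw [finrank_rangePhi hκ, Module.finrank_fintype_fun_eq_card] at h6
  rw [Fintype.card_prod] at hL h6
  rw [sq]
  rw [Fintype.card_option] at hL h6
  nlinarith

end Pool.Agent.H53R5
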