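import Pool.Agent.H53R5.Border2
import Pool.Agent.H53R5.RealB

/-! # Polynomials whose zero sets are swept by affine subspaces -/

set_option autoImplicit false
set_option linter.unusedSectionVars false

namespace Pool.Agent.H53R5

open MvPolynomial Equiv Finset Filter Topology

universe u

/-- through every zero of `f` passes an affine subspace of codimension at most `m` on which `f`
vanishes -/
def Swept {K : Type u} [Field K] {σ : Type} [Fintype σ] (m : ℕ) (f : MvPolynomial σ K) : Prop :=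
  ∀ p : σ → K, eval p f = 0 → ∃ L : Submodule K (σ → K),
    Fintype.card σ ≤ Module.finrank K L + m ∧ ∀ y ∈ L, eval (p + y) f = 0

section general

variable {K : Type u} [Field K] {κ : Type} [Fintype κ] [DecidableEq κ]

lemma Swept.line {σ : Type} [Fintype σ] {f : MvPolynomial σ K} {p : σ → K}
    {L : Submodule K (σ → K)} (h : ∀ y ∈ L, eval (p + y) f = 0) (y : σ → K) (hy : y ∈ L) (t : K) :
    eval (fun b => p b + t * y b) f = 0 :=
  h (t • y) (L.smul_mem t hy)

theorem swept_option [CharZero K] (hκ : 2 ≤ Fintype.card κ) {m : ℕ}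
    (f : MvPolynomial (Option κ × Option κ) K) (hf : f ≠ 0) (hs : Swept m f)
    (hdvd : perP K (Option κ) ∣ f) : Fintype.card (Option κ) ^ 2 ≤ 2 * m := by
  obtain ⟨p₁, -, -, hp⟩ := perm_generic hκ f hf (fun _ => Set.univ) (fun _ => Set.infinite_univ)
  obtain ⟨h1, h2, h3⟩ := hp _ rfl
  set p := Function.update p₁ (none, none) (- eval p₁ (restB K κ) / eval p₁ (minorA K κ)) with hpd
  have hp0 : eval p f = 0 := by
    obtain ⟨g, hg⟩ := hdvd
    rw [hg, map_mul, h1, zero_mul]
  obtain ⟨L, hL, hL2⟩ := hs p hp0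
  have h4 := finrank_le_of_vanish (perP K (Option κ)) _ h2 L
    (fun y hy => h3 y (Swept.line hL2 y hy))
  rw [Fintype.card_prod] at hL h4
  rw [sq]
  omega

theorem swept_option_real (hκ : 2 ≤ Fintype.card κ) {m : ℕ}
    (f : MvPolynomial (Option κ × Option κ) ℝ) (hf : f ≠ 0) (hs : Swept m f)
    (hdvd : perP ℝ (Option κ) ∣ f) : Fintype.card κ ^ 2 + 1 ≤ m := by
  obtain ⟨p, h2, hneg, h3⟩ := real_generic hκ f hf
  obtain ⟨L, hL, hL2⟩ := hs p (by
    obtain ⟨g, hg⟩ := hdvd
    rw [hg, map_mul, h2, zero_mul])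
  have hdisj : Disjoint L (LinearMap.range (Phi κ)) := by
    rw [Submodule.disjoint_def]
    rintro y hy ⟨w, rfl⟩
    by_contra hne
    have hw0 : w ≠ 0 := by
      intro h
      apply hne
      rw [h, map_zero]
    have h4 := hneg w hw0
    have h5 : hP p w = 0 := by
      unfold hP
      rw [hess_self, h3 _ (Swept.line hL2 _ hy), Polynomial.coeff_zero, mul_zero]
    rw [h5] at h4
    exact lt_irrefl _ h4
  have h6 := Submodule.finrank_add_finrank_le_of_disjoint hdisj
  rw [finrank_rangePhi hκ, Module.finrank_fintype_fun_eq_card] at h6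
  rw [Fintype.card_prod] at hL h6
  rw [sq]
  rw [Fintype.card_option] at hL h6
  nlinarith

end general

section transfer

variable {K : Type u} [Field K]

lemma Swept.rename {σ τ : Type} [Fintype σ] [Fintype τ] (E : σ ≃ τ) {m : ℕ}
    {f : MvPolynomial σ K} (hs : Swept m f) : Swept m (MvPolynomial.rename E f) := by
  intro p hp
  rw [eval_rename] at hp
  obtain ⟨L, hL, hL2⟩ := hs _ hp
  let T : (τ → K) ≃ₗ[K] (σ → K) := LinearEquiv.funCongrLeft K K E
  refine ⟨L.comap (T : (τ → K) →ₗ[K] (σ → K)), ?_, ?_⟩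
  · have h1 : Module.finrank K (L.comap (T : (τ → K) →ₗ[K] (σ → K))) = Module.finrank K L := by
      rw [Submodule.comap_equiv_eq_map_symm]
      exact LinearEquiv.finrank_map_eq T.symm L
    rw [h1, ← Fintype.card_congr E]
    exact hL
  · intro y hy
    rw [eval_rename]
    exact hL2 (T y) hy

lemma rename_perP {ι ι' : Type} [Fintype ι] [DecidableEq ι] [Fintype ι'] [DecidableEq ι']
    (e : ι ≃ ι') : MvPolynomial.rename (Equiv.prodCongr e e) (perP K ι) = perP K ι' := by
  rw [perP_eq, perP_eq, map_sum, ← Equiv.sum_comp (Equiv.permCongr e)]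
  refine Finset.sum_congr rfl fun σ _ => ?_
  rw [map_prod, ← Equiv.prod_comp e]
  refine Finset.prod_congr rfl fun i _ => ?_
  rw [rename_X]
  simp [Equiv.permCongr_apply]

lemma exists_equiv {n : ℕ} (hn : 3 ≤ n) : ∃ k, n = k + 1 ∧ 2 ≤ Fintype.card (Fin k) ∧
    Nonempty (Fin n ≃ Option (Fin k)) := by
  obtain ⟨k, rfl⟩ : ∃ k, n = k + 1 := ⟨n - 1, by omega⟩
  refine ⟨k, rfl, by rw [Fintype.card_fin]; omega, ?_⟩
  exact ⟨Fintype.equivOfCardEq (by simp)⟩

theorem swept_fin [CharZero K] {n m : ℕ} (hn : 3 ≤ n) (f : MvPolynomial (Fin n × Fin n) K)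
    (hf : f ≠ 0) (hs : Swept m f) (hdvd : perP K (Fin n) ∣ f) : n ^ 2 ≤ 2 * m := by
  obtain ⟨k, hk, h2, ⟨e⟩⟩ := exists_equiv hn
  have h1 := swept_option h2 (MvPolynomial.rename (Equiv.prodCongr e e) f)
    (fun h => hf ((rename_injective _ (Equiv.prodCongr e e).injective) (by rw [h, map_zero])))
    (hs.rename _) (by
      rw [← rename_perP e]
      exact map_dvd _ hdvd)
  rwa [Fintype.card_option, Fintype.card_fin, ← hk] at h1

theorem swept_fin_real {n m : ℕ} (hn : 3 ≤ n) (f : MvPolynomial (Fin n × Fin n) ℝ)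
    (hf : f ≠ 0) (hs : Swept m f) (hdvd : perP ℝ (Fin n) ∣ f) : (n - 1) ^ 2 + 1 ≤ m := by
  obtain ⟨k, hk, h2, ⟨e⟩⟩ := exists_equiv hn
  have h1 := swept_option_real h2 (MvPolynomial.rename (Equiv.prodCongr e e) f)
    (fun h => hf ((rename_injective _ (Equiv.prodCongr e e).injective) (by rw [h, map_zero])))
    (hs.rename _) (by
      rw [← rename_perP e]
      exact map_dvd _ hdvd)
  rw [Fintype.card_fin] at h1
  have : n - 1 = k := by omega
  rw [this]
  exact h1

lemma Swept.mono {σ : Type} [Fintype σ] {m m' : ℕ} {f : MvPolynomial σ K} (h : Swept m f)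
    (hm : m ≤ m') : Swept m' f := fun p hp => by
  obtain ⟨L, hL, hL2⟩ := h p hp
  exact ⟨L, by omega, hL2⟩

lemma Swept.prod {σ : Type} [Fintype σ] {ι : Type} [Fintype ι] {m : ℕ}
    (f : ι → MvPolynomial σ K) (hf : ∀ i, Swept m (f i)) : Swept m (∏ i, f i) := by
  intro p hp
  rw [map_prod] at hp
  obtain ⟨i, -, hi⟩ := Finset.prod_eq_zero_iff.1 hp
  obtain ⟨L, hL, hL2⟩ := hf i p hi
  refine ⟨L, hL, fun y hy => ?_⟩
  rw [map_prod]
  exact Finset.prod_eq_zero (Finset.mem_univ i) (hL2 y hy)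

lemma swept_det {σ : Type} [Fintype σ] [DecidableEq σ] {m : ℕ}
    (A : Matrix (Fin m) (Fin m) (MvPolynomial σ K))
    (hA : ∀ a b, (A a b).totalDegree ≤ 1) : Swept m A.det := by
  intro p hp
  obtain ⟨L, hL, hL2⟩ := exists_subspace A hA p hp
  refine ⟨L, hL, fun y hy => ?_⟩
  have h1 := hL2 y hy 1
  have : (fun b => p b + 1 * y b) = p + y := by
    funext b
    rw [Pi.add_apply, one_mul]
  rwa [this] at h1

lemma swept_limit {σ : Type} [Fintype σ] [DecidableEq σ] {m : ℕ}
    (A : ℕ → Matrix (Fin m) (Fin m) (MvPolynomial σ ℂ))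
    (hA : ∀ k i j, (A k i j).totalDegree ≤ 1) (f : MvPolynomial σ ℂ) (hf : f ≠ 0)
    (hlim : ∀ d, Tendsto (fun k => coeff d (A k).det) atTop (𝓝 (coeff d f))) : Swept m f := by
  intro p hp
  obtain ⟨L, hL, hL2⟩ := exists_subspace_limit A hA f hf hlim p hp
  refine ⟨L, hL, fun y hy => ?_⟩
  have h1 := hL2 y hy 1
  have : (fun b => p b + 1 * y b) = p + y := by
    funext b
    rw [Pi.add_apply, one_mul]
  rwa [this] at h1

end transfer

end Pool.Agent.H53R5
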