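import Mathlib

/-!
# Hypersurfaces `A x_a + B = 0`: points where the zero set of a given polynomial looks like that of
`A x_a + B`

`A` and `B` do not involve the variable `x_a`.
-/

set_option autoImplicit false
set_option linter.unusedSectionVars false

namespace Pool.Agent.H53R5

open MvPolynomial

universe u

variable {K : Type u} [Field K] {σ : Type} [DecidableEq σ] [Fintype σ]

/-- polynomials that do not involve the variable `a` -/
noncomputable abbrev Sup (K : Type u) [Field K] {σ : Type} (a : σ) : Subalgebra K (MvPolynomial σ K) :=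
  supported K ({a}ᶜ : Set σ)

lemma X_mem_Sup {a b : σ} (h : b ≠ a) : (X b : MvPolynomial σ K) ∈ Sup K a :=
  X_mem_supported.2 (by simpa using h)

lemma eval_update {a : σ} {f : MvPolynomial σ K} (hf : f ∈ Sup K a) (p : σ → K) (c : K) :
    eval (Function.update p a c) f = eval p f := by
  refine eval₂Hom_congr' rfl ?_ rfl
  intro i hi _
  have h1 : (i : σ) ∈ ({a}ᶜ : Set σ) := mem_supported.1 hf hi
  have h2 : i ≠ a := by simpa using h1
  rw [Function.update_of_ne h2]

/-- expansion of `A ^ d f` in powers of `q = A x_a + B` -/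
lemma exists_rep (a : σ) (A B : Sup K a) (f : MvPolynomial σ K) :
    ∃ (d : ℕ) (P : Polynomial (Sup K a)),
      (A : MvPolynomial σ K) ^ d * f
        = Polynomial.aeval ((A : MvPolynomial σ K) * X a + (B : MvPolynomial σ K)) P := by
  induction f using MvPolynomial.induction_on with
  | C c =>
    refine ⟨0, Polynomial.C (algebraMap K _ c), ?_⟩
    rw [pow_zero, one_mul, Polynomial.aeval_C]
    rfl
  | add f g hf hg =>
    obtain ⟨d1, P1, h1⟩ := hf
    obtain ⟨d2, P2, h2⟩ := hg
    refine ⟨d1 + d2, Polynomial.C (A ^ d2) * P1 + Polynomial.C (A ^ d1) * P2, ?_⟩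
    rw [map_add, map_mul, map_mul, ← h1, ← h2, Polynomial.aeval_C, Polynomial.aeval_C]
    have e : ∀ k : ℕ, algebraMap (Sup K a) (MvPolynomial σ K) (A ^ k)
        = (A : MvPolynomial σ K) ^ k := fun k => rfl
    rw [e, e]
    ring
  | mul_X f b hf =>
    obtain ⟨d, P, h⟩ := hf
    by_cases hb : b = a
    · subst hb
      refine ⟨d + 1, P * (Polynomial.X + Polynomial.C (-B)), ?_⟩
      rw [map_mul, ← h, map_add, Polynomial.aeval_X, Polynomial.aeval_C]
      have e : algebraMap (Sup K b) (MvPolynomial σ K) (-B) = -(B : MvPolynomial σ K) := rfl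
      rw [e]
      ring
    · refine ⟨d, P * Polynomial.C ⟨X b, X_mem_Sup hb⟩, ?_⟩
      rw [map_mul, ← h, Polynomial.aeval_C]
      have e : algebraMap (Sup K a) (MvPolynomial σ K) ⟨X b, X_mem_Sup hb⟩ = X b := rfl
      rw [e]
      ring

lemma eval_aeval {a : σ} (q : MvPolynomial σ K) (P : Polynomial (Sup K a)) (p : σ → K)
    (hq : eval p q = 0) :
    eval p (Polynomial.aeval q P) = eval p (P.coeff 0 : MvPolynomial σ K) := by
  rw [Polynomial.aeval_def, Polynomial.hom_eval₂, hq, Polynomial.eval₂_at_zero]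
  rfl

/-- the restriction of a polynomial to a line -/
noncomputable def line (p y : σ → K) : MvPolynomial σ K →ₐ[K] Polynomial K :=
  aeval (fun b => Polynomial.C (p b) + Polynomial.X * Polynomial.C (y b))

lemma eval_line (p y : σ → K) (f : MvPolynomial σ K) (t : K) :
    (line p y f).eval t = eval (fun b => p b + t * y b) f := by
  have h : (Polynomial.evalRingHom t).comp (line p y : MvPolynomial σ K →+* Polynomial K)
      = eval (fun b => p b + t * y b) := by
    apply MvPolynomial.ringHom_ext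
    · intro c
      simp [line]
    · intro b
      simp [line]
      ring
  exact DFunLike.congr_fun h f

lemma line_eq_zero [Infinite K] (p y : σ → K) (f : MvPolynomial σ K)
    (h : ∀ t : K, eval (fun b => p b + t * y b) f = 0) : line p y f = 0 := by
  apply Polynomial.funext
  intro t
  rw [eval_line, h, Polynomial.eval_zero]

/-- **Generic points.** Let `q = A x_a + B` and let `f`, `D` be polynomials, `f ≠ 0`, such that
`D ≠ 0` at some zero `p₀` of `q` with `A(p₀) ≠ 0`. Then for all infinite sets `s_b` there are points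
`p₁ ∈ ∏ s_b` such that at the point `p` of `q = 0` above `p₁` we have `D(p) ≠ 0`, and every line
through `p` on which `f` vanishes lies in `q = 0`. -/
theorem generic_point [Infinite K] (a : σ) (A B : Sup K a) (f D : MvPolynomial σ K) (hf : f ≠ 0)
    (p₀ : σ → K)
    (hq₀ : eval p₀ ((A : MvPolynomial σ K) * X a + (B : MvPolynomial σ K)) = 0)
    (hA₀ : eval p₀ (A : MvPolynomial σ K) ≠ 0) (hD₀ : eval p₀ D ≠ 0)
    (s : σ → Set K) (hs : ∀ b, (s b).Infinite) :
    ∃ p₁ : σ → K, (∀ b, p₁ b ∈ s b) ∧ eval p₁ (A : MvPolynomial σ K) ≠ 0 ∧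
      ∀ p : σ → K, p = Function.update p₁ a
          (- eval p₁ (B : MvPolynomial σ K) / eval p₁ (A : MvPolynomial σ K)) →
        eval p ((A : MvPolynomial σ K) * X a + (B : MvPolynomial σ K)) = 0 ∧
        eval p D ≠ 0 ∧
        ∀ y : σ → K, (∀ t : K, eval (fun b => p b + t * y b) f = 0) →
          line p y ((A : MvPolynomial σ K) * X a + (B : MvPolynomial σ K)) = 0 := by
  set q : MvPolynomial σ K := (A : MvPolynomial σ K) * X a + (B : MvPolynomial σ K) with hqdef
  obtain ⟨d, P, hP⟩ := exists_rep a A B f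
  obtain ⟨d', P', hP'⟩ := exists_rep a A B D
  rw [← hqdef] at hP hP'
  have hA0 : (A : MvPolynomial σ K) ≠ 0 := fun h => hA₀ (by rw [h, map_zero])
  have hPne : P ≠ 0 := by
    intro h
    rw [h, map_zero] at hP
    exact mul_ne_zero (pow_ne_zero _ hA0) hf hP
  obtain ⟨Q, hQ, hQ0⟩ := Polynomial.exists_eq_pow_rootMultiplicity_mul_and_not_dvd P hPne 0
  set j := P.rootMultiplicity 0 with hj
  rw [map_zero, sub_zero] at hQ hQ0
  have hQc : Q.coeff 0 ≠ 0 := fun h => hQ0 (Polynomial.X_dvd_iff.2 h)
  have hPc' : P'.coeff 0 ≠ 0 := by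
    intro h
    have h1 := congrArg (eval p₀) hP'
    rw [eval_aeval q P' p₀ hq₀, h] at h1
    rw [map_mul, map_pow] at h1
    have h2 : eval p₀ ((0 : Sup K a) : MvPolynomial σ K) = 0 := by
      rw [ZeroMemClass.coe_zero, map_zero]
    rw [h2] at h1
    exact mul_ne_zero (pow_ne_zero _ hA₀) hD₀ h1
  set G : MvPolynomial σ K := (A : MvPolynomial σ K) * (Q.coeff 0 : MvPolynomial σ K) *
    (P'.coeff 0 : MvPolynomial σ K) with hG
  have hGne : G ≠ 0 := by
    refine mul_ne_zero (mul_ne_zero hA0 ?_) ?_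
    · intro h; exact hQc (Subtype.ext h)
    · intro h; exact hPc' (Subtype.ext h)
  obtain ⟨p₁, hp₁, hG₁⟩ : ∃ p₁ : σ → K, (∀ b, p₁ b ∈ s b) ∧ eval p₁ G ≠ 0 := by
    by_contra hcon
    push Not at hcon
    apply hGne
    refine MvPolynomial.funext_set s hs ?_
    intro x hx
    rw [hcon x (fun b => hx b (Set.mem_univ b)), map_zero]
  rw [hG, map_mul, map_mul] at hG₁
  have hA₁ : eval p₁ (A : MvPolynomial σ K) ≠ 0 := fun h => hG₁ (by rw [h]; ring)
  have hQ₁ : eval p₁ (Q.coeff 0 : MvPolynomial σ K) ≠ 0 := fun h => hG₁ (by rw [h]; ring)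
  have hP₁ : eval p₁ (P'.coeff 0 : MvPolynomial σ K) ≠ 0 := fun h => hG₁ (by rw [h]; ring)
  refine ⟨p₁, hp₁, hA₁, ?_⟩
  intro p hp
  have hev : ∀ h ∈ Sup K a, eval p h = eval p₁ h := by
    intro h hh
    rw [hp]
    exact eval_update hh _ _
  have hqp : eval p q = 0 := by
    rw [hqdef, map_add, map_mul, hev _ A.2, hev _ B.2, eval_X, hp, Function.update_self]
    field_simp
    ring
  refine ⟨hqp, ?_, ?_⟩
  · intro h
    have h1 := congrArg (eval p) hP'
    rw [eval_aeval q P' p hqp, map_mul, h, mul_zero, hev _ (P'.coeff 0).2] at h1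
    exact hP₁ h1.symm
  · intro y hy
    have h0 := line_eq_zero p y f hy
    have h1 := congrArg (line p y) hP
    rw [map_mul, h0, mul_zero, hQ, map_mul, map_pow, Polynomial.aeval_X, map_mul, map_pow] at h1
    have h2 : line p y (Polynomial.aeval q Q) ≠ 0 := by
      intro h
      have h3 := congrArg (Polynomial.eval 0) h
      rw [eval_line, Polynomial.eval_zero] at h3
      simp only [zero_mul, add_zero] at h3
      rw [eval_aeval q Q p hqp, hev _ (Q.coeff 0).2] at h3
      exact hQ₁ h3
    rcases mul_eq_zero.1 h1.symm with h3 | h3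
    · exact (pow_eq_zero_iff (n := j) (by
        intro hj0
        rw [hj0, pow_zero] at h3
        exact one_ne_zero h3)).1 h3
    · exact absurd h3 h2

end Pool.Agent.H53R5
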