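import Pool.Agent.H53R5.Gen
import Pool.Agent.H567.LinAlg

/-! # Second-order data of a polynomial at a point -/

set_option autoImplicit false
set_option linter.unusedSectionVars false

namespace Pool.Agent.H53R5

open MvPolynomial

universe u

variable {K : Type u} [Field K] {σ : Type} [DecidableEq σ] [Fintype σ]

lemma derivative_line (p y : σ → K) (f : MvPolynomial σ K) :
    Polynomial.derivative (line p y f) = ∑ e, Polynomial.C (y e) * line p y (pderiv e f) := by
  induction f using MvPolynomial.induction_on with
  | C c => simp [line]
  | add f g hf hg =>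
    rw [map_add, map_add, hf, hg, ← Finset.sum_add_distrib]
    refine Finset.sum_congr rfl fun e _ => ?_
    rw [map_add, map_add]
    ring
  | mul_X f b hf =>
    have hX : line p y (X b) = Polynomial.C (p b) + Polynomial.X * Polynomial.C (y b) := by
      simp [line]
    have hdX : Polynomial.derivative (line p y (X b)) = Polynomial.C (y b) := by
      rw [hX]; simp
    rw [map_mul, Polynomial.derivative_mul, hf, hdX, Finset.sum_mul]
    have h1 : ∀ e, Polynomial.C (y e) * line p y (pderiv e (f * X b))
        = Polynomial.C (y e) * line p y (pderiv e f) * line p y (X b)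
          + (if e = b then line p y f * Polynomial.C (y b) else 0) := by
      intro e
      rw [Derivation.leibniz, pderiv_X, smul_eq_mul, smul_eq_mul, map_add, map_mul, map_mul]
      by_cases heb : e = b
      · subst heb
        rw [if_pos rfl, Pi.single_eq_same, map_one]
        ring
      · rw [if_neg heb, Pi.single_eq_of_ne (Ne.symm heb), map_zero]
        ring
    rw [Finset.sum_congr rfl fun e _ => h1 e, Finset.sum_add_distrib, Finset.sum_ite_eq' ,
      if_pos (Finset.mem_univ _)]

/-- second derivatives at a point, as a bilinear expression -/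
noncomputable def hess (f : MvPolynomial σ K) (p y z : σ → K) : K :=
  ∑ e, ∑ e', y e * z e' * eval p (pderiv e' (pderiv e f))

lemma hess_self (f : MvPolynomial σ K) (p y : σ → K) :
    hess f p y y = 2 * (line p y f).coeff 2 := by
  have h1 : (Polynomial.derivative (Polynomial.derivative (line p y f))).eval 0
      = hess f p y y := by
    rw [derivative_line, map_sum, Polynomial.eval_finsetSum]
    unfold hess
    refine Finset.sum_congr rfl fun e _ => ?_
    rw [Polynomial.derivative_mul, Polynomial.derivative_C, zero_mul, zero_add, derivative_line,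
      Finset.mul_sum, Polynomial.eval_finsetSum]
    refine Finset.sum_congr rfl fun e' _ => ?_
    rw [Polynomial.eval_mul, Polynomial.eval_mul, Polynomial.eval_C, Polynomial.eval_C, eval_line]
    simp only [zero_mul, add_zero]
    ring
  rw [← h1, ← Polynomial.coeff_zero_eq_eval_zero, Polynomial.coeff_derivative,
    Polynomial.coeff_derivative]
  push_cast
  ring

/-- the symmetrised matrix of second derivatives -/
noncomputable def hmat (f : MvPolynomial σ K) : Matrix σ σ (MvPolynomial σ K) :=
  Matrix.of fun e e' => pderiv e' (pderiv e f) + pderiv e (pderiv e' f)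

lemma hmat_apply (f : MvPolynomial σ K) (p y z : σ → K) :
    y ⬝ᵥ ((hmat f).map (eval p)).mulVec z = hess f p y z + hess f p z y := by
  unfold hess hmat
  simp only [dotProduct, Matrix.mulVec, Matrix.map_apply, Matrix.of_apply, map_add,
    Finset.mul_sum]
  have h2 : ∑ e, ∑ e', z e * y e' * eval p (pderiv e' (pderiv e f))
      = ∑ e, ∑ e', y e * z e' * eval p (pderiv e (pderiv e' f)) := by
    rw [Finset.sum_comm]
    refine Finset.sum_congr rfl fun e _ => Finset.sum_congr rfl fun e' _ => by ring
  rw [h2, ← Finset.sum_add_distrib]
  refine Finset.sum_congr rfl fun e _ => ?_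
  rw [← Finset.sum_add_distrib]
  refine Finset.sum_congr rfl fun e' _ => ?_
  ring

lemma hess_add_left (f : MvPolynomial σ K) (p y y' z : σ → K) :
    hess f p (y + y') z = hess f p y z + hess f p y' z := by
  unfold hess
  rw [← Finset.sum_add_distrib]
  refine Finset.sum_congr rfl fun e _ => ?_
  rw [← Finset.sum_add_distrib]
  refine Finset.sum_congr rfl fun e' _ => ?_
  rw [Pi.add_apply]; ring

lemma hess_add_right (f : MvPolynomial σ K) (p y z z' : σ → K) :
    hess f p y (z + z') = hess f p y z + hess f p y z' := by
  unfold hess
  rw [← Finset.sum_add_distrib]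
  refine Finset.sum_congr rfl fun e _ => ?_
  rw [← Finset.sum_add_distrib]
  refine Finset.sum_congr rfl fun e' _ => ?_
  rw [Pi.add_apply]; ring

/-- polarisation -/
lemma hess_polar (f : MvPolynomial σ K) (p y z : σ → K) :
    hess f p y z + hess f p z y = 2 * ((line p (y + z) f).coeff 2 - (line p y f).coeff 2
      - (line p z f).coeff 2) := by
  have h := hess_self f p (y + z)
  rw [hess_add_left, hess_add_right, hess_add_right, hess_self f p y, hess_self f p z] at h
  linear_combination h

/-- If `f` vanishes on all lines through `p` with directions in `L` and the symmetrised matrix of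
second derivatives is invertible at `p`, then `2 dim L ≤ |σ|`. -/
theorem finrank_le_of_vanish (f : MvPolynomial σ K) (p : σ → K)
    (hD : eval p (hmat f).det ≠ 0) (L : Submodule K (σ → K))
    (hL : ∀ y ∈ L, line p y f = 0) : 2 * Module.finrank K L ≤ Fintype.card σ := by
  set M := (hmat f).map (eval p) with hM
  have hdet : M.det ≠ 0 := by
    have : M = (eval p).mapMatrix (hmat f) := rfl
    rw [this, ← RingHom.map_det]
    exact hD
  let Ω : (σ → K) →ₗ[K] Module.Dual K (σ → K) := LinearMap.mk₂ K
    (fun z y => y ⬝ᵥ M.mulVec z)
    (by intro a b c; rw [Matrix.mulVec_add, dotProduct_add])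
    (by intro c a b; rw [Matrix.mulVec_smul, dotProduct_smul])
    (by intro a b c; rw [add_dotProduct])
    (by intro c a b; rw [smul_dotProduct])
  have hΩ : Function.Injective Ω := by
    rw [← LinearMap.ker_eq_bot, LinearMap.ker_eq_bot']
    intro z hz
    have h1 : M.mulVec z = 0 := by
      funext e
      have h2 := DFunLike.congr_fun hz (Pi.single e 1)
      have h3 : Ω z (Pi.single e 1) = Pi.single e 1 ⬝ᵥ M.mulVec z := rfl
      rw [h3, single_one_dotProduct] at h2
      exact h2
    exact Matrix.eq_zero_of_mulVec_eq_zero hdet h1
  have h := Pool.Agent.H567.finrank_isotropic_le Ω hΩ L (by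
    intro x hx y hy
    have h1 : Ω x y = y ⬝ᵥ M.mulVec x := rfl
    rw [h1, hmat_apply, hess_polar, hL _ (L.add_mem hy hx), hL _ hy, hL _ hx]
    simp)
  rwa [Module.finrank_fintype_fun_eq_card] at h

end Pool.Agent.H53R5
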