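import Pool.Agent.H53R5.Base
import Pool.Agent.Results.MP_35c45d_lc.DcPermLower

/-! # Determinantal representations of multiples of the permanent -/

set_option autoImplicit false
set_option linter.unusedSectionVars false

namespace Pool.Agent.H53R5

open MvPolynomial Equiv Finset

universe u

variable {K : Type u} [Field K]

section kernel

variable {σ : Type} [DecidableEq σ] [Fintype σ]

/-- the directions in which a vector `v` stays in the kernel -/
noncomputable def kerMap {m : ℕ} (A : Matrix (Fin m) (Fin m) (MvPolynomial σ K)) (v : Fin m → K) :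
    (σ → K) →ₗ[K] (Fin m → K) where
  toFun y := fun i => ∑ j, (∑ e, coeff (Finsupp.single e 1) (A i j) * y e) * v j
  map_add' x y := by
    funext i
    simp [mul_add, add_mul, Finset.sum_add_distrib]
  map_smul' c x := by
    funext i
    simp only [Pi.smul_apply, smul_eq_mul, RingHom.id_apply, Finset.mul_sum]
    refine Finset.sum_congr rfl fun j _ => ?_
    rw [Finset.sum_mul, Finset.sum_mul, Finset.mul_sum]
    refine Finset.sum_congr rfl fun e _ => ?_
    ring

lemma eval_affine {m : ℕ} (A : Matrix (Fin m) (Fin m) (MvPolynomial σ K))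
    (hA : ∀ i j, (A i j).totalDegree ≤ 1) (p y : σ → K) (t : K) (v : Fin m → K) :
    ((A.map (eval fun b => p b + t * y b)).mulVec v)
      = (A.map (eval p)).mulVec v + t • kerMap A v y := by
  funext i
  simp only [Matrix.mulVec, dotProduct, Matrix.map_apply, Pi.add_apply, Pi.smul_apply,
    smul_eq_mul, kerMap, LinearMap.coe_mk, AddHom.coe_mk]
  rw [Finset.mul_sum, ← Finset.sum_add_distrib]
  refine Finset.sum_congr rfl fun j _ => ?_
  rw [Pool.Agent.Results.MP_35c45d_lc.DcPermLower.eval_of_totalDegree_le_one _ (hA i j),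
    Pool.Agent.Results.MP_35c45d_lc.DcPermLower.eval_of_totalDegree_le_one _ (hA i j)]
  simp only [mul_add, Finset.sum_add_distrib, add_mul]
  have : ∑ e, coeff (Finsupp.single e 1) (A i j) * (t * y e)
      = t * ∑ e, coeff (Finsupp.single e 1) (A i j) * y e := by
    rw [Finset.mul_sum]
    exact Finset.sum_congr rfl fun e _ => by ring
  rw [this]
  ring

lemma finrank_ker {m : ℕ} (A : Matrix (Fin m) (Fin m) (MvPolynomial σ K)) (v : Fin m → K) :
    Fintype.card σ ≤ Module.finrank K (LinearMap.ker (kerMap A v)) + m := by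
  have h1 := LinearMap.finrank_range_add_finrank_ker (kerMap A v)
  have h2 := Submodule.finrank_le (LinearMap.range (kerMap A v))
  rw [Module.finrank_fintype_fun_eq_card] at h1 h2
  rw [Fintype.card_fin] at h2
  omega

lemma eval_det_eq_zero {m : ℕ} (A : Matrix (Fin m) (Fin m) (MvPolynomial σ K))
    (hA : ∀ i j, (A i j).totalDegree ≤ 1) (p y : σ → K) (v : Fin m → K) (hv : v ≠ 0)
    (hp : (A.map (eval p)).mulVec v = 0) (hy : y ∈ LinearMap.ker (kerMap A v)) (t : K) :
    eval (fun b => p b + t * y b) A.det = 0 := by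
  have h1 : eval (fun b => p b + t * y b) A.det
      = (A.map (eval fun b => p b + t * y b)).det := by
    rw [RingHom.map_det]; rfl
  rw [h1]
  refine Matrix.exists_mulVec_eq_zero_iff.1 ⟨v, hv, ?_⟩
  rw [eval_affine A hA, hp, LinearMap.mem_ker.1 hy, smul_zero, add_zero]

theorem exists_subspace {m : ℕ} (A : Matrix (Fin m) (Fin m) (MvPolynomial σ K))
    (hA : ∀ i j, (A i j).totalDegree ≤ 1) (p : σ → K) (hp : eval p A.det = 0) :
    ∃ L : Submodule K (σ → K), Fintype.card σ ≤ Module.finrank K L + m ∧
      ∀ y ∈ L, ∀ t : K, eval (fun b => p b + t * y b) A.det = 0 := by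
  have h1 : (A.map (eval p)).det = 0 := by
    have : eval p A.det = (A.map (eval p)).det := by rw [RingHom.map_det]; rfl
    rw [← this, hp]
  obtain ⟨v, hv0, hv⟩ := Matrix.exists_mulVec_eq_zero_iff.2 h1
  exact ⟨LinearMap.ker (kerMap A v), finrank_ker A v, fun y hy t =>
    eval_det_eq_zero A hA p y v hv0 hv hy t⟩

end kernel

variable {κ : Type} [Fintype κ] [DecidableEq κ]

/-- generic points for the permanent -/
theorem perm_generic [CharZero K] (hκ : 2 ≤ Fintype.card κ)
    (f : MvPolynomial (Option κ × Option κ) K) (hf : f ≠ 0)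
    (s : Option κ × Option κ → Set K) (hs : ∀ b, (s b).Infinite) :
    ∃ p₁ : Option κ × Option κ → K, (∀ b, p₁ b ∈ s b) ∧ eval p₁ (minorA K κ) ≠ 0 ∧
      ∀ p, p = Function.update p₁ (none, none) (- eval p₁ (restB K κ) / eval p₁ (minorA K κ)) →
        eval p (perP K (Option κ)) = 0 ∧ eval p (hmat (perP K (Option κ))).det ≠ 0 ∧
        ∀ y, (∀ t : K, eval (fun b => p b + t * y b) f = 0) →
          line p y (perP K (Option κ)) = 0 := by
  have h0 : eval (base K κ) ((minorA K κ) * X ((none, none) : Option κ × Option κ)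
      + (restB K κ)) = 0 := by
    rw [← perP_split]
    exact eval_perP_base
  have h := generic_point ((none, none) : Option κ × Option κ) ⟨minorA K κ, minorA_mem⟩
    ⟨restB K κ, restB_mem⟩ f (hmat (perP K (Option κ))).det hf (base K κ) h0 eval_minorA_base
    (hmat_base hκ) s hs
  simp only [← perP_split] at h
  exact h

theorem multiples_option [CharZero K] (hκ : 2 ≤ Fintype.card κ) {m : ℕ}
    (A : Matrix (Fin m) (Fin m) (MvPolynomial (Option κ × Option κ) K))
    (hA : ∀ i j, (A i j).totalDegree ≤ 1) (hdet : A.det ≠ 0)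
    (hdvd : perP K (Option κ) ∣ A.det) :
    Fintype.card (Option κ) ^ 2 ≤ 2 * m := by
  obtain ⟨p₁, -, -, hp⟩ := perm_generic hκ A.det hdet (fun _ => Set.univ)
    (fun _ => Set.infinite_univ)
  obtain ⟨h1, h2, h3⟩ := hp _ rfl
  set p := Function.update p₁ (none, none) (- eval p₁ (restB K κ) / eval p₁ (minorA K κ)) with hpd
  have hp0 : eval p A.det = 0 := by
    obtain ⟨g, hg⟩ := hdvd
    rw [hg, map_mul, h1, zero_mul]
  obtain ⟨L, hL, hL2⟩ := exists_subspace A hA p hp0
  have h4 := finrank_le_of_vanish (perP K (Option κ)) p h2 L (fun y hy => h3 y (hL2 y hy))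
  rw [Fintype.card_prod] at hL h4
  rw [sq]
  omega

end Pool.Agent.H53R5
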