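import Mathlib
import Pool.Agent.H567.PermExpand

/-! # Sums over permutations of products of two or three row functions -/

set_option autoImplicit false
set_option linter.unusedSectionVars false

namespace Pool.Agent.H53R5

open Equiv Finset

universe u

variable {K : Type u} [Field K]

lemma sum_lin {ι : Type} [Fintype ι] (ν : K) (F1 F2 F3 F4 F5 : ι → ι → ι → K) :
    ∑ j, ∑ l, ∑ m, ν * (F1 j l m - F2 j l m - F3 j l m - F4 j l m + 2 * F5 j l m)
      = ν * (∑ j, ∑ l, ∑ m, F1 j l m - ∑ j, ∑ l, ∑ m, F2 j l m - ∑ j, ∑ l, ∑ m, F3 j l m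
        - ∑ j, ∑ l, ∑ m, F4 j l m + 2 * ∑ j, ∑ l, ∑ m, F5 j l m) := by
  simp only [← Finset.mul_sum, Finset.sum_add_distrib, Finset.sum_sub_distrib]

lemma sum_three (ι : Type) [Fintype ι] [DecidableEq ι] : ∃ ν : ℕ, (3 ≤ Fintype.card ι → ν ≠ 0) ∧
    ∀ a b c : ι, a ≠ b → a ≠ c → b ≠ c → ∀ f g h : ι → K,
      ∑ σ : Perm ι, f (σ a) * g (σ b) * h (σ c)
        = ν * ((∑ j, f j) * (∑ j, g j) * (∑ j, h j) - (∑ j, f j * g j) * (∑ j, h j)
          - (∑ j, f j * h j) * (∑ j, g j) - (∑ j, g j * h j) * (∑ j, f j)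
          + 2 * ∑ j, f j * g j * h j) := by
  obtain ⟨ν, hν, hν0⟩ := Pool.Agent.H567.exists_card_prescribed 3 ι
  refine ⟨ν, hν0, ?_⟩
  intro a b c hab hac hbc f g h
  have hR : Function.Injective ![a, b, c] := by
    intro i j hij
    fin_cases i <;> fin_cases j <;> simp_all
  have hcount : ∀ j l m : ι, ((univ.filter (fun σ : Perm ι => σ a = j ∧ σ b = l ∧ σ c = m)).card : K)
      = if j ≠ l ∧ j ≠ m ∧ l ≠ m then (ν : K) else 0 := by
    intro j l m
    by_cases hd : j ≠ l ∧ j ≠ m ∧ l ≠ m
    · rw [if_pos hd]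
      obtain ⟨h1, h2, h3⟩ := hd
      have hL : Function.Injective ![j, l, m] := by
        intro i i' hij
        fin_cases i <;> fin_cases i' <;> simp_all
      rw [← hν _ _ hR hL]
      congr 2
      ext σ
      simp [Fin.forall_fin_succ]
    · rw [if_neg hd]
      have : univ.filter (fun σ : Perm ι => σ a = j ∧ σ b = l ∧ σ c = m) = ∅ := by
        rw [Finset.filter_eq_empty_iff]
        rintro σ - ⟨rfl, rfl, rfl⟩
        exact hd ⟨fun h => hab (σ.injective h), fun h => hac (σ.injective h),
          fun h => hbc (σ.injective h)⟩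
      rw [this]
      simp
  have h1 : ∀ σ : Perm ι, f (σ a) * g (σ b) * h (σ c)
      = ∑ j, ∑ l, ∑ m, if σ a = j ∧ σ b = l ∧ σ c = m then f j * g l * h m else 0 := by
    intro σ
    rw [Finset.sum_eq_single (σ a)]
    · rw [Finset.sum_eq_single (σ b)]
      · rw [Finset.sum_eq_single (σ c)]
        · simp
        · intro m _ hm
          rw [if_neg (fun h => hm h.2.2.symm)]
        · simp
      · intro l _ hl
        exact Finset.sum_eq_zero fun m _ => if_neg (fun h => hl h.2.1.symm)
      · simp
    · intro j _ hj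
      exact Finset.sum_eq_zero fun l _ => Finset.sum_eq_zero fun m _ =>
        if_neg (fun h => hj h.1.symm)
    · simp
  have h2 : ∑ σ : Perm ι, f (σ a) * g (σ b) * h (σ c)
      = ∑ j, ∑ l, ∑ m, (if j ≠ l ∧ j ≠ m ∧ l ≠ m then (ν : K) else 0) * (f j * g l * h m) := by
    rw [Finset.sum_congr rfl fun σ _ => h1 σ, Finset.sum_comm]
    refine Finset.sum_congr rfl fun j _ => ?_
    rw [Finset.sum_comm]
    refine Finset.sum_congr rfl fun l _ => ?_
    rw [Finset.sum_comm]
    refine Finset.sum_congr rfl fun m _ => ?_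
    rw [← hcount, ← Finset.sum_filter, Finset.sum_const, nsmul_eq_mul]
  rw [h2]
  have h3 : ∀ j l m : ι, (if j ≠ l ∧ j ≠ m ∧ l ≠ m then (ν : K) else 0) * (f j * g l * h m)
      = ν * (f j * g l * h m - (if l = j then f j * g l * h m else 0)
        - (if m = j then f j * g l * h m else 0) - (if m = l then f j * g l * h m else 0)
        + 2 * (if l = j then (if m = j then f j * g l * h m else 0) else 0)) := by
    intro j l m
    by_cases h1 : l = j
    · subst h1
      by_cases h2 : m = l
      · subst h2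
        rw [if_neg (fun h => h.1 rfl)]
        simp only [if_true]
        ring
      · simp [h2]
    · by_cases h2 : m = j
      · subst h2
        have h4 : ¬ (m = l) := fun h => h1 h.symm
        simp [h1, h4]
      · by_cases h3 : m = l
        · subst h3
          simp [h1]
        · have h1' : ¬ (j = l) := fun h => h1 h.symm
          have h2' : ¬ (j = m) := fun h => h2 h.symm
          have h3' : ¬ (l = m) := fun h => h3 h.symm
          simp [h1, h2, h3, h1', h2', h3']
  simp only [h3]
  rw [sum_lin]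
  congr 1
  have e1 : ∑ j, ∑ l, ∑ m, f j * g l * h m = (∑ j, f j) * (∑ j, g j) * (∑ j, h j) := by
    rw [Finset.sum_mul_sum, Finset.sum_mul]
    refine Finset.sum_congr rfl fun j _ => ?_
    rw [Finset.sum_mul]
    refine Finset.sum_congr rfl fun l _ => ?_
    rw [Finset.mul_sum]
  have e2 : ∑ j, ∑ l, ∑ m, (if l = j then f j * g l * h m else 0)
      = (∑ j, f j * g j) * (∑ j, h j) := by
    rw [Finset.sum_mul]
    refine Finset.sum_congr rfl fun j _ => ?_
    rw [Finset.sum_eq_single j]
    · simp [Finset.mul_sum]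
    · intro l _ hl; simp [hl]
    · simp
  have e3 : ∑ j, ∑ l, ∑ m, (if m = j then f j * g l * h m else 0)
      = (∑ j, f j * h j) * (∑ j, g j) := by
    simp only [Finset.sum_ite_eq', Finset.mem_univ, if_true]
    rw [Finset.sum_mul]
    refine Finset.sum_congr rfl fun j _ => ?_
    rw [Finset.mul_sum]
    refine Finset.sum_congr rfl fun l _ => ?_
    ring
  have e4 : ∑ j, ∑ l, ∑ m, (if m = l then f j * g l * h m else 0)
      = (∑ j, g j * h j) * (∑ j, f j) := by
    simp only [Finset.sum_ite_eq', Finset.mem_univ, if_true]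
    rw [mul_comm, Finset.sum_mul]
    refine Finset.sum_congr rfl fun j _ => ?_
    rw [Finset.mul_sum]
    refine Finset.sum_congr rfl fun l _ => ?_
    ring
  have e5 : ∑ j, ∑ l, ∑ m, (if l = j then (if m = j then f j * g l * h m else 0) else 0)
      = ∑ j, f j * g j * h j := by
    refine Finset.sum_congr rfl fun j _ => ?_
    rw [Finset.sum_eq_single j]
    · simp
    · intro l _ hl; simp [hl]
    · simp
  rw [e1, e2, e3, e4, e5]

end Pool.Agent.H53R5
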