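import Pool.Agent.H53R5.Hess
import Pool.Agent.H53R5.Sums

/-! # The permanent near the point `(1, ..., 1)` with one entry changed to `1 - n` -/

set_option autoImplicit false
set_option linter.unusedSectionVars false

namespace Pool.Agent.H53R5

open MvPolynomial Equiv Finset

universe u

/-- the generic permanent -/
noncomputable def perP (K : Type u) [Field K] (ι : Type) [Fintype ι] [DecidableEq ι] :
    MvPolynomial (ι × ι) K :=
  (Matrix.of fun i j : ι => (X (i, j) : MvPolynomial (ι × ι) K)).permanent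

lemma perP_eq (K : Type u) [Field K] (ι : Type) [Fintype ι] [DecidableEq ι] :
    perP K ι = ∑ σ : Perm ι, ∏ i, X (i, σ i) := by
  unfold perP
  rw [Pool.Agent.H567.permanent_eq]
  rfl

variable {K : Type u} [Field K] {κ : Type} [Fintype κ] [DecidableEq κ]

lemma eval_perP {ι : Type} [Fintype ι] [DecidableEq ι] (p : ι × ι → K) :
    eval p (perP K ι) = ∑ σ : Perm ι, ∏ i, p (i, σ i) := by
  rw [perP_eq, map_sum]
  refine Finset.sum_congr rfl fun σ _ => ?_
  rw [map_prod]
  refine Finset.prod_congr rfl fun i _ => ?_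
  rw [eval_X]

lemma line_perP {ι : Type} [Fintype ι] [DecidableEq ι] (p y : ι × ι → K) :
    line p y (perP K ι)
      = ∑ σ : Perm ι, ∏ i, (Polynomial.C (p (i, σ i)) + Polynomial.X * Polynomial.C (y (i, σ i)))
      := by
  rw [perP_eq, map_sum]
  refine Finset.sum_congr rfl fun σ _ => ?_
  rw [map_prod]
  refine Finset.prod_congr rfl fun i _ => ?_
  simp [line]

/-- the first row of the base point -/
def uu (K : Type u) [Field K] (κ : Type) [Fintype κ] : Option κ → K
  | none => -(Fintype.card κ : K)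
  | some _ => 1

/-- the base point -/
def base (K : Type u) [Field K] (κ : Type) [Fintype κ] : Option κ × Option κ → K
  | (none, j) => uu K κ j
  | (some _, _) => 1

lemma sum_uu : ∑ j, uu K κ j = 0 := by
  rw [Fintype.sum_option]
  simp [uu]

/-- the second-order part of the permanent at the base point -/
def qf (y : Option κ × Option κ → K) : K :=
  ((Fintype.card κ : K) - 1) * ((∑ i, y (some i, none)) * (∑ i, ∑ j, y (some i, some j))
      - ∑ i, y (some i, none) * ∑ j, y (some i, some j))
    - (∑ i, ∑ j, y (some i, some j)) ^ 2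
    + ∑ j, (∑ i, y (some i, some j)) ^ 2 + ∑ i, (∑ j, y (some i, some j)) ^ 2
    - ∑ i, ∑ j, y (some i, some j) ^ 2
    + ((Fintype.card κ : K) - 1) * ((y (none, none) + ∑ j, y (none, some j))
        * (∑ i, y (some i, none) + ∑ i, ∑ j, y (some i, some j))
      - y (none, none) * ∑ i, y (some i, none)
      - ∑ j, y (none, some j) * ∑ i, y (some i, some j))

lemma sum_lin2 {ι : Type} [Fintype ι] (ν N : K) (F1 F2 F3 F4 : ι → ι → K) :
    ∑ i, ∑ k, ν * (N * (F1 i k + F2 i k) - 2 * F3 i k + 2 * F4 i k)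
      = ν * (N * (∑ i, ∑ k, F1 i k + ∑ i, ∑ k, F2 i k) - 2 * ∑ i, ∑ k, F3 i k
        + 2 * ∑ i, ∑ k, F4 i k) := by
  simp only [← Finset.mul_sum, Finset.sum_add_distrib, Finset.sum_sub_distrib]

lemma sum_lin1 {ι : Type} [Fintype ι] (ν N : K) (F1 F2 F3 F4 : ι → K) :
    ∑ i, ν * (N * (F1 i + F2 i) - 2 * F3 i + 2 * F4 i)
      = ν * (N * (∑ i, F1 i + ∑ i, F2 i) - 2 * ∑ i, F3 i + 2 * ∑ i, F4 i) := by
  simp only [← Finset.mul_sum, Finset.sum_add_distrib, Finset.sum_sub_distrib]

lemma coeff_two_mul (a b : K) (P : Polynomial K) :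
    ((Polynomial.C a + Polynomial.X * Polynomial.C b) * P).coeff 2
      = a * P.coeff 2 + b * P.coeff 1 := by
  have e : (Polynomial.C a + Polynomial.X * Polynomial.C b) * P
      = Polynomial.C a * P + (Polynomial.C b * P) * Polynomial.X := by ring
  rw [e, Polynomial.coeff_add, Polynomial.coeff_mul_X, Polynomial.coeff_C_mul,
    Polynomial.coeff_C_mul]

lemma two_coeff_two (y : Option κ × Option κ → K) :
    2 * (line (base K κ) y (perP K (Option κ))).coeff 2
      = ∑ σ : Perm (Option κ), (∑ i : κ, ∑ k ∈ univ.erase i,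
          uu K κ (σ none) * y (some i, σ (some i)) * y (some k, σ (some k)))
        + 2 * ∑ σ : Perm (Option κ), ∑ i : κ, y (none, σ none) * y (some i, σ (some i)) := by
  rw [line_perP, Polynomial.finsetSum_coeff, Finset.mul_sum, Finset.mul_sum,
    ← Finset.sum_add_distrib]
  refine Finset.sum_congr rfl fun σ _ => ?_
  rw [Fintype.prod_option]
  have e1 : ∏ i : κ, (Polynomial.C (base K κ (some i, σ (some i)))
      + Polynomial.X * Polynomial.C (y (some i, σ (some i))))
      = ∏ i : κ, (1 + Polynomial.X * Polynomial.C (y (some i, σ (some i)))) := by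
    refine Finset.prod_congr rfl fun i _ => ?_
    have : base K κ (some i, σ (some i)) = 1 := rfl
    rw [this, map_one]
  have e2 : base K κ (none, σ none) = uu K κ (σ none) := rfl
  rw [e1, e2, coeff_two_mul, mul_add, mul_left_comm, Pool.Agent.H567.coeff_two_prod_one_add,
    (Pool.Agent.H567.coeff_prod_one_add _ _).2.1, Finset.mul_sum, Finset.mul_sum]
  congr 1
  refine Finset.sum_congr rfl fun i _ => ?_
  rw [Finset.mul_sum]
  refine Finset.sum_congr rfl fun k _ => ?_
  ring

theorem exists_coeff_two [CharZero K] (hκ : 2 ≤ Fintype.card κ) :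
    ∃ ν : ℕ, ν ≠ 0 ∧ ∀ y : Option κ × Option κ → K,
      (line (base K κ) y (perP K (Option κ))).coeff 2 = ν * qf y := by
  obtain ⟨ν, hν0, hν⟩ := sum_three (K := K) (Option κ)
  refine ⟨ν, hν0 (by rw [Fintype.card_option]; omega), ?_⟩
  intro y
  have h2 : (2 : K) ≠ 0 := two_ne_zero
  apply mul_left_cancel₀ h2
  rw [two_coeff_two, Finset.sum_comm]
  have hA : ∀ i k : κ, k ≠ i → ∑ σ : Perm (Option κ),
      uu K κ (σ none) * y (some i, σ (some i)) * y (some k, σ (some k))
      = ν * (((Fintype.card κ : K) - 1) * (y (some i, none) * ∑ j, y (some k, some j)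
          + y (some k, none) * ∑ j, y (some i, some j))
        - 2 * ((∑ j, y (some i, some j)) * ∑ j, y (some k, some j))
        + 2 * ∑ j, y (some i, some j) * y (some k, some j)) := by
    intro i k hki
    rw [hν none (some i) (some k) (by simp) (by simp) (by simpa using hki.symm) (uu K κ)
      (fun j => y (some i, j)) (fun j => y (some k, j)), sum_uu]
    simp only [Fintype.sum_option, uu]
    have e1 : ∑ j : κ, (1 : K) * y (some i, some j) = ∑ j : κ, y (some i, some j) := by simp
    have e2 : ∑ j : κ, (1 : K) * y (some k, some j) = ∑ j : κ, y (some k, some j) := by simp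
    have e3 : ∑ j : κ, (1 : K) * y (some i, some j) * y (some k, some j)
        = ∑ j : κ, y (some i, some j) * y (some k, some j) := by simp
    rw [e1, e2, e3]
    ring
  have hB : ∀ i : κ, ∑ σ : Perm (Option κ), y (none, σ none) * y (some i, σ (some i))
      = ν * (((Fintype.card κ : K) - 1) * ((y (none, none) + ∑ j, y (none, some j))
        * (y (some i, none) + ∑ j, y (some i, some j))
        - y (none, none) * y (some i, none) - ∑ j, y (none, some j) * y (some i, some j))) := by
    intro i
    obtain ⟨k, hk⟩ := Fintype.exists_ne_of_one_lt_card (by omega : 1 < Fintype.card κ) i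
    have h1 := hν none (some i) (some k) (by simp) (by simp) (by simpa using hk.symm)
      (fun j => y (none, j)) (fun j => y (some i, j)) (fun _ => 1)
    simp only [mul_one, Finset.sum_const, Finset.card_univ, nsmul_eq_mul,
      Fintype.card_option] at h1
    rw [h1]
    simp only [Fintype.sum_option]
    push_cast
    ring
  have hA' : ∑ i : κ, ∑ σ : Perm (Option κ), ∑ k ∈ univ.erase i,
      uu K κ (σ none) * y (some i, σ (some i)) * y (some k, σ (some k))
      = ∑ i : κ, ∑ k ∈ univ.erase i, (ν : K) * (((Fintype.card κ : K) - 1)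
          * (y (some i, none) * ∑ j, y (some k, some j)
          + y (some k, none) * ∑ j, y (some i, some j))
        - 2 * ((∑ j, y (some i, some j)) * ∑ j, y (some k, some j))
        + 2 * ∑ j, y (some i, some j) * y (some k, some j)) := by
    refine Finset.sum_congr rfl fun i _ => ?_
    rw [Finset.sum_comm]
    refine Finset.sum_congr rfl fun k hk => ?_
    exact hA i k (Finset.ne_of_mem_erase hk)
  rw [hA']
  have hB' : ∑ σ : Perm (Option κ), ∑ i : κ, y (none, σ none) * y (some i, σ (some i))
      = ∑ i : κ, (ν : K) * (((Fintype.card κ : K) - 1) * ((y (none, none)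
        + ∑ j, y (none, some j)) * (y (some i, none) + ∑ j, y (some i, some j))
        - y (none, none) * y (some i, none) - ∑ j, y (none, some j) * y (some i, some j))) := by
    rw [Finset.sum_comm]
    exact Finset.sum_congr rfl fun i _ => hB i
  rw [hB']
  have hE : ∀ F : κ → κ → K, ∑ i : κ, ∑ k ∈ univ.erase i, F i k
      = ∑ i, ∑ k, F i k - ∑ i, F i i := by
    intro F
    rw [← Finset.sum_sub_distrib]
    refine Finset.sum_congr rfl fun i _ => ?_
    rw [Finset.sum_erase_eq_sub (Finset.mem_univ i)]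
  rw [hE]
  -- the individual sums
  set c : κ → K := fun i => y (some i, none) with hc
  set r : κ → K := fun j => y (none, some j) with hr
  set z : κ → κ → K := fun i j => y (some i, some j) with hz
  set R : κ → K := fun i => ∑ j, z i j with hR
  set S : K := ∑ i, R i with hS
  set a : K := y (none, none) with ha
  set N : K := (Fintype.card κ : K) with hN
  have f1 : ∑ i, ∑ k, (ν : K) * ((N - 1) * (c i * R k + c k * R i) - 2 * (R i * R k)
      + 2 * ∑ j, z i j * z k j)
      = ν * (2 * (N - 1) * ((∑ i, c i) * S) - 2 * S ^ 2 + 2 * ∑ j, (∑ i, z i j) ^ 2) := by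
    rw [sum_lin2]
    have g1 : ∑ i, ∑ k, c i * R k = (∑ i, c i) * S := by
      rw [hS, Finset.sum_mul_sum]
    have g2 : ∑ i, ∑ k, c k * R i = (∑ i, c i) * S := by
      rw [Finset.sum_comm, hS, Finset.sum_mul_sum]
    have g3 : ∑ i, ∑ k, R i * R k = S ^ 2 := by
      rw [hS, sq, Finset.sum_mul_sum]
    have g4 : ∑ i, ∑ k, ∑ j, z i j * z k j = ∑ j, (∑ i, z i j) ^ 2 := by
      have : ∀ i, ∑ k, ∑ j, z i j * z k j = ∑ j, z i j * ∑ k, z k j := by
        intro i
        rw [Finset.sum_comm]
        exact Finset.sum_congr rfl fun j _ => by rw [Finset.mul_sum]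
      rw [Finset.sum_congr rfl fun i _ => this i, Finset.sum_comm]
      refine Finset.sum_congr rfl fun j _ => ?_
      rw [← Finset.sum_mul, sq]
    rw [g1, g2, g3, g4]
    ring
  have f2 : ∑ i, (ν : K) * ((N - 1) * (c i * R i + c i * R i) - 2 * (R i * R i)
      + 2 * ∑ j, z i j * z i j)
      = ν * (2 * (N - 1) * (∑ i, c i * R i) - 2 * ∑ i, R i ^ 2
        + 2 * ∑ i, ∑ j, z i j ^ 2) := by
    rw [sum_lin1]
    have g3 : ∑ i, R i * R i = ∑ i, R i ^ 2 := Finset.sum_congr rfl fun i _ => by ring
    have g4 : ∑ i, ∑ j, z i j * z i j = ∑ i, ∑ j, z i j ^ 2 :=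
      Finset.sum_congr rfl fun i _ => Finset.sum_congr rfl fun j _ => by ring
    rw [g3, g4]
    ring
  have f3 : ∑ i, (ν : K) * ((N - 1) * ((a + ∑ j, r j) * (c i + R i) - a * c i
      - ∑ j, r j * z i j))
      = ν * ((N - 1) * ((a + ∑ j, r j) * (∑ i, c i + S) - a * ∑ i, c i
        - ∑ j, r j * ∑ i, z i j)) := by
    rw [← Finset.mul_sum, ← Finset.mul_sum, Finset.sum_sub_distrib, Finset.sum_sub_distrib,
      ← Finset.mul_sum, ← Finset.mul_sum, Finset.sum_add_distrib]
    have g1 : ∑ i, ∑ j, r j * z i j = ∑ j, r j * ∑ i, z i j := by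
      rw [Finset.sum_comm]
      exact Finset.sum_congr rfl fun j _ => by rw [Finset.mul_sum]
    rw [g1]
  have f1' := f1
  have f2' := f2
  have f3' := f3
  simp only [hR] at f1' f2' f3'
  rw [f1', f2', f3']
  have hq : qf y = (N - 1) * ((∑ i, c i) * S - ∑ i, c i * R i) - S ^ 2
      + ∑ j, (∑ i, z i j) ^ 2 + ∑ i, R i ^ 2 - ∑ i, ∑ j, z i j ^ 2
      + (N - 1) * ((a + ∑ j, r j) * (∑ i, c i + S) - a * ∑ i, c i
        - ∑ j, r j * ∑ i, z i j) := rfl
  rw [hq]
  ring

end Pool.Agent.H53R5
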