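import Pool.Agent.H53R5.Main1

/-! # The second-order form of the real permanent is negative definite on a large subspace -/

set_option autoImplicit false
set_option linter.unusedSectionVars false

namespace Pool.Agent.H53R5

open MvPolynomial Finset Filter Topology

variable {κ : Type} [Fintype κ] [DecidableEq κ]

/-- coordinates of the subspace on which the second-order form is negative definite -/
noncomputable def PhiF (w : (κ × κ → ℝ) × ℝ) : Option κ × Option κ → ℝ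
  | (none, none) => 0
  | (none, some j) => 2 / (Fintype.card κ : ℝ) * (∑ i, w.1 (i, j))
      - 2 / (Fintype.card κ : ℝ) ^ 2 * (∑ i, ∑ j, w.1 (i, j)) + w.2
  | (some i, none) => 2 / (Fintype.card κ : ℝ) * (∑ j, w.1 (i, j))
      - 2 / (Fintype.card κ : ℝ) ^ 2 * (∑ i, ∑ j, w.1 (i, j)) - w.2
  | (some i, some j) => w.1 (i, j)

noncomputable def Phi (κ : Type) [Fintype κ] [DecidableEq κ] :
    ((κ × κ → ℝ) × ℝ) →ₗ[ℝ] (Option κ × Option κ → ℝ) where
  toFun := PhiF
  map_add' x y := by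
    funext e
    rcases e with ⟨_ | i, _ | j⟩ <;>
      simp only [PhiF, Pi.add_apply, Prod.fst_add, Prod.snd_add, Finset.sum_add_distrib] <;> ring
  map_smul' c x := by
    funext e
    rcases e with ⟨_ | i, _ | j⟩ <;>
      simp only [PhiF, Pi.smul_apply, Prod.smul_fst, Prod.smul_snd, smul_eq_mul,
        ← Finset.mul_sum, RingHom.id_apply] <;> ring

lemma Phi_injective : Function.Injective (Phi κ) ∨ Fintype.card κ = 0 := by
  by_cases hκ : Fintype.card κ = 0
  · exact Or.inr hκ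
  left
  rw [← LinearMap.ker_eq_bot, LinearMap.ker_eq_bot']
  rintro ⟨z, τ⟩ h
  have h1 : ∀ i j, z (i, j) = 0 := fun i j => congrFun h (some i, some j)
  have hz : z = 0 := by
    funext ⟨i, j⟩
    exact h1 i j
  obtain ⟨i⟩ := Fintype.card_pos_iff.1 (Nat.pos_of_ne_zero hκ)
  have h2 : PhiF (z, τ) (none, some i) = 0 := congrFun h (none, some i)
  simp only [PhiF, h1, Finset.sum_const_zero, mul_zero, sub_zero, zero_add] at h2
  rw [hz, h2]
  rfl

lemma qf_Phi (hκ : 2 ≤ Fintype.card κ) (w : (κ × κ → ℝ) × ℝ) :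
    qf (Phi κ w) = - (∑ i, ∑ j, w.1 (i, j) ^ 2)
      - ((Fintype.card κ : ℝ) - 2) / (Fintype.card κ : ℝ)
        * (∑ i, (∑ j, w.1 (i, j)) ^ 2 + ∑ j, (∑ i, w.1 (i, j)) ^ 2)
      - (((Fintype.card κ : ℝ) - 2) / (Fintype.card κ : ℝ)) ^ 2 * (∑ i, ∑ j, w.1 (i, j)) ^ 2
      - (Fintype.card κ : ℝ) ^ 2 * ((Fintype.card κ : ℝ) - 1) * w.2 ^ 2 := by
  obtain ⟨z, τ⟩ := w
  set N : ℝ := (Fintype.card κ : ℝ) with hN
  have hN0 : N ≠ 0 := by
    have : Fintype.card κ ≠ 0 := by omega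
    rw [hN]; exact_mod_cast this
  set R : κ → ℝ := fun i => ∑ j, z (i, j) with hR
  set C : κ → ℝ := fun j => ∑ i, z (i, j) with hC
  set S : ℝ := ∑ i, R i with hS
  have hSC : ∑ j, C j = S := by rw [hS, hC, hR]; exact Finset.sum_comm
  have hcard : ∀ x : ℝ, ∑ _i : κ, x = N * x := fun x => by
    rw [Finset.sum_const, Finset.card_univ, nsmul_eq_mul]
  have hy1 : Phi κ (z, τ) (none, none) = 0 := rfl
  have hy2 : ∀ j, Phi κ (z, τ) (none, some j) = 2 / N * C j - 2 / N ^ 2 * S + τ := fun j => rfl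
  have hy3 : ∀ i, Phi κ (z, τ) (some i, none) = 2 / N * R i - 2 / N ^ 2 * S - τ := fun i => rfl
  have hy4 : ∀ i j, Phi κ (z, τ) (some i, some j) = z (i, j) := fun i j => rfl
  unfold qf
  simp only [hy1, hy2, hy3, hy4]
  change (N - 1) * ((∑ i, (2 / N * R i - 2 / N ^ 2 * S - τ)) * S
      - ∑ i, (2 / N * R i - 2 / N ^ 2 * S - τ) * R i)
    - S ^ 2 + ∑ j, C j ^ 2 + ∑ i, R i ^ 2 - ∑ i, ∑ j, z (i, j) ^ 2
    + (N - 1) * ((0 + ∑ j, (2 / N * C j - 2 / N ^ 2 * S + τ))
        * (∑ i, (2 / N * R i - 2 / N ^ 2 * S - τ) + S)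
      - 0 * ∑ i, (2 / N * R i - 2 / N ^ 2 * S - τ)
      - ∑ j, (2 / N * C j - 2 / N ^ 2 * S + τ) * C j)
    = - (∑ i, ∑ j, z (i, j) ^ 2) - (N - 2) / N * (∑ i, R i ^ 2 + ∑ j, C j ^ 2)
      - ((N - 2) / N) ^ 2 * S ^ 2 - N ^ 2 * (N - 1) * τ ^ 2
  have f1 : ∑ i, (2 / N * R i - 2 / N ^ 2 * S - τ) = - N * τ := by
    rw [Finset.sum_sub_distrib, Finset.sum_sub_distrib, hcard, hcard, ← Finset.mul_sum, ← hS]
    field_simp
    ring
  have f2 : ∑ j, (2 / N * C j - 2 / N ^ 2 * S + τ) = N * τ := by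
    rw [Finset.sum_add_distrib, Finset.sum_sub_distrib, hcard, hcard, ← Finset.mul_sum, hSC]
    field_simp
    ring
  have f3 : ∑ i, (2 / N * R i - 2 / N ^ 2 * S - τ) * R i
      = 2 / N * ∑ i, R i ^ 2 - 2 / N ^ 2 * S ^ 2 - τ * S := by
    have : ∀ i, (2 / N * R i - 2 / N ^ 2 * S - τ) * R i
        = 2 / N * R i ^ 2 - (2 / N ^ 2 * S + τ) * R i := fun i => by ring
    rw [Finset.sum_congr rfl fun i _ => this i, Finset.sum_sub_distrib, ← Finset.mul_sum,
      ← Finset.mul_sum, ← hS]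
    ring
  have f4 : ∑ j, (2 / N * C j - 2 / N ^ 2 * S + τ) * C j
      = 2 / N * ∑ j, C j ^ 2 - 2 / N ^ 2 * S ^ 2 + τ * S := by
    have : ∀ j, (2 / N * C j - 2 / N ^ 2 * S + τ) * C j
        = 2 / N * C j ^ 2 - (2 / N ^ 2 * S - τ) * C j := fun j => by ring
    rw [Finset.sum_congr rfl fun j _ => this j, Finset.sum_sub_distrib, ← Finset.mul_sum,
      ← Finset.mul_sum, hSC]
    ring
  rw [f1, f2, f3, f4]
  field_simp
  ring

lemma qf_Phi_neg (hκ : 2 ≤ Fintype.card κ) (w : (κ × κ → ℝ) × ℝ) (hw : w ≠ 0) :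
    qf (Phi κ w) < 0 := by
  rw [qf_Phi hκ]
  set N : ℝ := (Fintype.card κ : ℝ) with hN
  have hN2 : (2 : ℝ) ≤ N := by rw [hN]; exact_mod_cast hκ
  have hN0 : 0 < N := by linarith
  have g1 : 0 ≤ ∑ i, ∑ j, w.1 (i, j) ^ 2 :=
    Finset.sum_nonneg fun i _ => Finset.sum_nonneg fun j _ => sq_nonneg _
  have g2 : 0 ≤ (N - 2) / N * (∑ i, (∑ j, w.1 (i, j)) ^ 2 + ∑ j, (∑ i, w.1 (i, j)) ^ 2) := by
    apply mul_nonneg (div_nonneg (by linarith) hN0.le)
    exact add_nonneg (Finset.sum_nonneg fun i _ => sq_nonneg _)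
      (Finset.sum_nonneg fun i _ => sq_nonneg _)
  have g3 : 0 ≤ ((N - 2) / N) ^ 2 * (∑ i, ∑ j, w.1 (i, j)) ^ 2 := by positivity
  have g4 : 0 ≤ N ^ 2 * (N - 1) * w.2 ^ 2 :=
    mul_nonneg (mul_nonneg (sq_nonneg _) (by linarith)) (sq_nonneg _)
  by_contra hcon
  push Not at hcon
  have e1 : ∑ i, ∑ j, w.1 (i, j) ^ 2 = 0 := by linarith
  have e4 : N ^ 2 * (N - 1) * w.2 ^ 2 = 0 := by linarith
  apply hw
  have h1 : ∀ i j, w.1 (i, j) = 0 := by
    intro i j
    have h2 := (Finset.sum_eq_zero_iff_of_nonneg (fun i _ =>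
      Finset.sum_nonneg fun j _ => sq_nonneg (w.1 (i, j)))).1 e1 i (Finset.mem_univ i)
    have h3 := (Finset.sum_eq_zero_iff_of_nonneg (fun j _ => sq_nonneg (w.1 (i, j)))).1 h2 j
      (Finset.mem_univ j)
    exact pow_eq_zero_iff (two_ne_zero) |>.1 h3
  have h5 : w.2 = 0 := by
    rcases mul_eq_zero.1 e4 with h | h
    · exfalso
      have : 0 < N ^ 2 * (N - 1) := mul_pos (by positivity) (by linarith)
      linarith
    · exact pow_eq_zero_iff (two_ne_zero) |>.1 h
  refine Prod.ext ?_ h5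
  funext ⟨i, j⟩
  exact h1 i j

/-- the second-order form on the subspace, as a function of the base point -/
noncomputable def hP (p : Option κ × Option κ → ℝ) (w : (κ × κ → ℝ) × ℝ) : ℝ :=
  hess (perP ℝ (Option κ)) p (Phi κ w) (Phi κ w)

lemma continuous_hP : Continuous (fun z : (Option κ × Option κ → ℝ) × ((κ × κ → ℝ) × ℝ) =>
    hP z.1 z.2) := by
  unfold hP hess
  refine continuous_finsetSum _ fun e _ => continuous_finsetSum _ fun e' _ => ?_
  have h1 : Continuous (fun z : (Option κ × Option κ → ℝ) × ((κ × κ → ℝ) × ℝ) => Phi κ z.2) :=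
    (LinearMap.continuous_of_finiteDimensional (Phi κ)).comp continuous_snd
  refine ((((continuous_apply e).comp h1)).mul (((continuous_apply e').comp h1))).mul ?_
  exact (MvPolynomial.continuous_eval _).comp continuous_fst

lemma eventually_neg (hκ : 2 ≤ Fintype.card κ) :
    ∀ᶠ p in 𝓝 (base ℝ κ), ∀ w : (κ × κ → ℝ) × ℝ, w ≠ 0 → hP p w < 0 := by
  obtain ⟨ν, hν0, hν⟩ := exists_coeff_two (K := ℝ) (κ := κ) hκ
  have h1 : ∀ᶠ p in 𝓝 (base ℝ κ), ∀ w ∈ Metric.sphere (0 : (κ × κ → ℝ) × ℝ) 1, hP p w < 0 := by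
    apply IsCompact.eventually_forall_of_forall_eventually (isCompact_sphere _ _)
    intro w hw
    have hw0 : w ≠ 0 := by
      rintro rfl
      simp at hw
    have h2 : hP (base ℝ κ) w < 0 := by
      unfold hP
      rw [hess_self, hν]
      have h3 := qf_Phi_neg hκ w hw0
      have h4 : (0 : ℝ) < ν := by exact_mod_cast Nat.pos_of_ne_zero hν0
      nlinarith
    have h3 := (continuous_hP (κ := κ)).continuousAt (x := (base ℝ κ, w))
    exact h3.eventually (gt_mem_nhds h2)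
  filter_upwards [h1] with p hp w hw
  have hn : 0 < ‖w‖ := norm_pos_iff.2 hw
  have h2 := hp (‖w‖⁻¹ • w) (by
    rw [mem_sphere_zero_iff_norm, norm_smul, norm_inv, norm_norm, inv_mul_cancel₀ hn.ne'])
  have h3 : hP p (‖w‖⁻¹ • w) = (‖w‖⁻¹) ^ 2 * hP p w := by
    unfold hP hess
    rw [map_smul, Finset.mul_sum]
    refine Finset.sum_congr rfl fun e _ => ?_
    rw [Finset.mul_sum]
    refine Finset.sum_congr rfl fun e' _ => ?_
    rw [Pi.smul_apply, Pi.smul_apply, smul_eq_mul, smul_eq_mul]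
    ring
  rw [h3] at h2
  by_contra hcon
  push Not at hcon
  have : 0 ≤ (‖w‖⁻¹) ^ 2 * hP p w := mul_nonneg (sq_nonneg _) hcon
  linarith

/-- the point of the permanental hypersurface above a point -/
noncomputable def lift (p₁ : Option κ × Option κ → ℝ) : Option κ × Option κ → ℝ :=
  Function.update p₁ (none, none) (- eval p₁ (restB ℝ κ) / eval p₁ (minorA ℝ κ))

lemma lift_base : lift (base ℝ κ) = base ℝ κ := by
  unfold lift
  have h1 := eval_perP_base (K := ℝ) (κ := κ)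
  have h2 := eval_minorA_base (K := ℝ) (κ := κ)
  rw [perP_split, map_add, map_mul, eval_X] at h1
  have h3 : - eval (base ℝ κ) (restB ℝ κ) / eval (base ℝ κ) (minorA ℝ κ)
      = base ℝ κ (none, none) := by
    rw [div_eq_iff h2]
    linarith
  rw [h3, Function.update_eq_self]

lemma continuousAt_lift : ContinuousAt (lift (κ := κ)) (base ℝ κ) := by
  unfold lift
  rw [continuousAt_pi]
  intro e
  by_cases he : e = (none, none)
  · subst he
    simp only [Function.update_self]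
    refine ContinuousAt.div ?_ ?_ eval_minorA_base
    · exact (MvPolynomial.continuous_eval _).neg.continuousAt
    · exact (MvPolynomial.continuous_eval _).continuousAt
  · simp only [Function.update_of_ne he]
    exact (continuous_apply e).continuousAt

end Pool.Agent.H53R5
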